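import Pool.Agent.W_4b1b5d_h35.Trunc
import Pool.Agent.W_4b1b5d_h33.Mom

/-!
# The truncated forms in the format of helper33
-/

set_option autoImplicit false

open Set Filter MeasureTheory Topology

namespace Pool.W4b1b5d.TR

open Pool.W4b1b5d.H3 Pool.W4b1b5d.SH Pool.W4b1b5d.H34

theorem trunc33 {D : PD} {τ : ℝ} (hτ : 0 < τ) (hHp : Ks 1 τ ⊆ D.H) (hHm : Ks (-1) τ ⊆ D.H)
    (S : Sh D 2 1 τ) (T : Sh D 2 (-1) τ) : Pool.W4b1b5d.H33.Trunc S T := by
  intro j i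
  filter_upwards [trunc_final hτ hHp hHm S T] with w hw
  have h1 := hw.2 j i
  have e : (fun x => Set.indicator
      {x : V2 | D.l x < ‖S.P j x (w : ℂ)‖ ^ 2 ∧ S.P j x (w : ℂ) = T.P i x (w : ℂ)}
      (fun x => Pool.W4b1b5d.H33.imv (Pool.W4b1b5d.H33.mom S j (w : ℂ) x)) x) = fun x m =>
      (((WW S T j i w).indicator (fm D (fun x => S.P j x (w : ℂ)) m) x : ℝ) : ℂ) := by
    funext x m
    by_cases hx : x ∈ WW S T j i w
    · rw [indicator_of_mem hx]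
      have hx' : x ∈ {x : V2 | D.l x < ‖S.P j x (w : ℂ)‖ ^ 2 ∧
        S.P j x (w : ℂ) = T.P i x (w : ℂ)} := hx
      rw [indicator_of_mem hx']
      rfl
    · rw [indicator_of_notMem hx]
      have hx' : x ∉ {x : V2 | D.l x < ‖S.P j x (w : ℂ)‖ ^ 2 ∧
        S.P j x (w : ℂ) = T.P i x (w : ℂ)} := hx
      rw [indicator_of_notMem hx']
      simp
  rw [e]
  exact h1

end Pool.W4b1b5d.TR
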