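import Pool.Agent.W_4b1b5d_h66.SHLoc
import Pool.Agent.W_4b1b5d_h66.SHBasic

/-!
# The imaginary part of the momentum form
-/

set_option autoImplicit false

open Set Filter Topology

namespace Pool.W4b1b5d.TR

open Pool.W4b1b5d.H3 Pool.W4b1b5d.SH

/-- The imaginary part of the momentum form with first component `P`, second component `l / P`. -/
noncomputable def fm (D : PD) (P : V2 → ℂ) (i : Fin 2) (x : V2) : ℝ :=
  (cov D.al (P x) ((D.l x : ℂ) / P x) i).im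

theorem cov_lin (al : Fin 2 → ℂ) (P Q : ℂ) (i : Fin 2) :
    cov al P Q i = cov al 1 0 i * P + cov al 0 1 i * Q := by
  fin_cases i <;> simp [cov] <;> ring

/-- a bound for the coefficients of `cov` -/
noncomputable def ck (al : Fin 2 → ℂ) : ℝ := ∑ i, (‖cov al 1 0 i‖ + ‖cov al 0 1 i‖)

theorem ck_nonneg (al : Fin 2 → ℂ) : 0 ≤ ck al :=
  Finset.sum_nonneg fun _ _ => by positivity

theorem ck1 (al : Fin 2 → ℂ) (i : Fin 2) : ‖cov al 1 0 i‖ ≤ ck al := by
  refine le_trans ?_ (Finset.single_le_sum (f := fun i => ‖cov al 1 0 i‖ + ‖cov al 0 1 i‖)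
    (fun _ _ => by positivity) (Finset.mem_univ i))
  have := norm_nonneg (cov al 0 1 i)
  linarith

theorem ck2 (al : Fin 2 → ℂ) (i : Fin 2) : ‖cov al 0 1 i‖ ≤ ck al := by
  refine le_trans ?_ (Finset.single_le_sum (f := fun i => ‖cov al 1 0 i‖ + ‖cov al 0 1 i‖)
    (fun _ _ => by positivity) (Finset.mem_univ i))
  have := norm_nonneg (cov al 1 0 i)
  linarith

theorem cov_im_le (al : Fin 2 → ℂ) (p q : ℂ) (i : Fin 2) :
    |(cov al 1 0 i * p + cov al 0 1 i * q).im| ≤ ck al * (‖p‖ + ‖q‖) := by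
  calc |(cov al 1 0 i * p + cov al 0 1 i * q).im| ≤ ‖cov al 1 0 i * p + cov al 0 1 i * q‖ :=
        Complex.abs_im_le_norm _
    _ ≤ ‖cov al 1 0 i * p‖ + ‖cov al 0 1 i * q‖ := norm_add_le _ _
    _ ≤ ck al * ‖p‖ + ck al * ‖q‖ := by
        rw [norm_mul, norm_mul]
        have h1 := ck1 al i
        have h2 := ck2 al i
        gcongr
    _ = _ := by ring

theorem fm_close (D : PD) {P P' : V2 → ℂ} {x : V2} (h : D.l x ≤ ‖P x‖ ^ 2)
    (h' : D.l x ≤ ‖P' x‖ ^ 2) (i : Fin 2) :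
    |fm D P i x - fm D P' i x| ≤ 2 * ck D.al * ‖P x - P' x‖ := by
  have hl := D.lpos x
  have hp : 0 < ‖P x‖ := by
    by_contra hc
    have : ‖P x‖ = 0 := le_antisymm (not_lt.1 hc) (norm_nonneg _)
    rw [this] at h
    linarith
  have hp' : 0 < ‖P' x‖ := by
    by_contra hc
    have : ‖P' x‖ = 0 := le_antisymm (not_lt.1 hc) (norm_nonneg _)
    rw [this] at h'
    linarith
  have hne : P x ≠ 0 := norm_pos_iff.1 hp
  have hne' : P' x ≠ 0 := norm_pos_iff.1 hp'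
  have h1 : D.l x ≤ ‖P x‖ * ‖P' x‖ := by
    have h2 : D.l x * D.l x ≤ (‖P x‖ * ‖P' x‖) * (‖P x‖ * ‖P' x‖) := by
      calc D.l x * D.l x ≤ ‖P x‖ ^ 2 * ‖P' x‖ ^ 2 := by gcongr
        _ = _ := by ring
    exact (mul_self_le_mul_self_iff hl.le (by positivity)).2 h2
  have h3 : ‖(D.l x : ℂ) / P x - (D.l x : ℂ) / P' x‖ ≤ ‖P x - P' x‖ := by
    have h4 : (D.l x : ℂ) / P x - (D.l x : ℂ) / P' x =
        ((D.l x : ℂ) / (P x * P' x)) * (P' x - P x) := by
      field_simp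
    rw [h4, norm_mul, norm_div, norm_mul, Complex.norm_real, Real.norm_of_nonneg hl.le,
      norm_sub_rev (P' x)]
    refine mul_le_of_le_one_left (norm_nonneg _) ?_
    rw [div_le_one (by positivity)]
    exact h1
  have h5 : fm D P i x - fm D P' i x = (cov D.al 1 0 i * (P x - P' x) +
      cov D.al 0 1 i * ((D.l x : ℂ) / P x - (D.l x : ℂ) / P' x)).im := by
    unfold fm
    rw [cov_lin, cov_lin D.al (P' x), ← Complex.sub_im]
    congr 1
    ring
  rw [h5]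
  refine (cov_im_le _ _ _ _).trans ?_
  have := ck_nonneg D.al
  calc ck D.al * (‖P x - P' x‖ + ‖(D.l x : ℂ) / P x - (D.l x : ℂ) / P' x‖)
      ≤ ck D.al * (‖P x - P' x‖ + ‖P x - P' x‖) := by gcongr
    _ = _ := by ring

theorem diff_l (D : PD) (x : V2) : DifferentiableAt ℝ (fun y => (D.l y : ℂ)) x :=
  BetaA_diff D.lsm x

theorem diff_q (D : PD) {P : V2 → ℂ} {x : V2} (hP : DifferentiableAt ℝ P x) (hne : P x ≠ 0) :
    DifferentiableAt ℝ (fun y => (D.l y : ℂ) / P y) x := by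
  have h3 : DifferentiableAt ℝ (fun y => (D.l y : ℂ) * (P y)⁻¹) x :=
    (diff_l D x).mul (hP.inv hne)
  simpa only [div_eq_mul_inv] using h3

theorem diff_cov (D : PD) {P : V2 → ℂ} {x : V2} (hP : DifferentiableAt ℝ P x) (hne : P x ≠ 0)
    (i : Fin 2) : DifferentiableAt ℝ (fun y => cov D.al (P y) ((D.l y : ℂ) / P y) i) x := by
  have h1 := diff_q D hP hne
  have e : (fun y => cov D.al (P y) ((D.l y : ℂ) / P y) i) = fun y =>
      cov D.al 1 0 i * P y + cov D.al 0 1 i * ((D.l y : ℂ) / P y) :=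
    funext fun y => cov_lin _ _ _ _
  rw [e]
  exact ((hP.const_mul _).add (h1.const_mul _))

/-- derivative of the imaginary part -/
theorem pd_im {g : V2 → ℂ} {x : V2} (hg : DifferentiableAt ℝ g x) (k : Fin 2) :
    pd k (fun y => (g y).im) x = (fderiv ℝ g x (Pi.single k 1)).im := by
  unfold pd
  have h1 : HasFDerivAt (fun y => (g y).im) (Complex.imCLM ∘L fderiv ℝ g x) x :=
    Complex.imCLM.hasFDerivAt.comp x hg.hasFDerivAt
  rw [h1.fderiv]
  rfl

theorem pd_fm (D : PD) {P : V2 → ℂ} {x : V2} (hP : DifferentiableAt ℝ P x) (hne : P x ≠ 0)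
    (i k : Fin 2) : pd k (fm D P i) x =
      (fderiv ℝ (fun y => cov D.al (P y) ((D.l y : ℂ) / P y) i) x (Pi.single k 1)).im :=
  pd_im (diff_cov D hP hne i) k

theorem fderiv_cov (D : PD) {P : V2 → ℂ} {x : V2} (hP : DifferentiableAt ℝ P x) (hne : P x ≠ 0)
    (i : Fin 2) (u : V2) : fderiv ℝ (fun y => cov D.al (P y) ((D.l y : ℂ) / P y) i) x u =
      cov D.al 1 0 i * fderiv ℝ P x u +
        cov D.al 0 1 i * fderiv ℝ (fun y => (D.l y : ℂ) / P y) x u := by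
  have h1 := diff_q D hP hne
  have e : (fun y => cov D.al (P y) ((D.l y : ℂ) / P y) i) = fun y =>
      cov D.al 1 0 i * P y + cov D.al 0 1 i * ((D.l y : ℂ) / P y) :=
    funext fun y => cov_lin _ _ _ _
  rw [e]
  have h2 : HasFDerivAt (fun y => cov D.al 1 0 i * P y + cov D.al 0 1 i * ((D.l y : ℂ) / P y))
      (cov D.al 1 0 i • fderiv ℝ P x + cov D.al 0 1 i • fderiv ℝ (fun y => (D.l y : ℂ) / P y) x)
      x := ((hP.hasFDerivAt.const_mul (cov D.al 1 0 i)).add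
    (h1.hasFDerivAt.const_mul (cov D.al 0 1 i)))
  rw [h2.fderiv]
  rfl

theorem fderiv_q (D : PD) {P : V2 → ℂ} {x : V2} (hP : DifferentiableAt ℝ P x) (hne : P x ≠ 0)
    (u : V2) : fderiv ℝ (fun y => (D.l y : ℂ) / P y) x u =
      (fderiv ℝ (fun y => (D.l y : ℂ)) x u - (D.l x : ℂ) / P x * fderiv ℝ P x u) / P x := by
  have h1 := diff_q D hP hne
  have h2 : (fun y => (D.l y : ℂ) / P y * P y) =ᶠ[𝓝 x] fun y => (D.l y : ℂ) := by
    filter_upwards [hP.continuousAt.eventually_ne hne] with y hy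
    rw [div_mul_cancel₀ _ hy]
  have h3 := h2.fderiv_eq (𝕜 := ℝ)
  rw [fderiv_fun_mul h1 hP] at h3
  have h4 := congrArg (fun L : V2 →L[ℝ] ℂ => L u) h3
  simp only [add_apply, smul_apply, smul_eq_mul] at h4
  rw [eq_div_iff hne, ← h4]
  ring

/-- bound of the derivatives of the form by the derivatives of `P` -/
theorem pd_fm_le (D : PD) : ∃ C : ℝ, 0 ≤ C ∧ ∀ (P : V2 → ℂ) (x : V2),
    DifferentiableAt ℝ P x → D.l x ≤ ‖P x‖ ^ 2 → ∀ i k : Fin 2,
      |pd k (fm D P i) x| ≤ C * (1 + ‖fderiv ℝ P x (Pi.single k 1)‖) := by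
  obtain ⟨c₀, C₀, hc₀, hl⟩ := D.l_bounds
  have hlper : Per fun y => (D.l y : ℂ) := fun x k => by
    simp only [D.lper x k]
  have hlsm : ContDiff ℝ (⊤ : ℕ∞) fun y => (D.l y : ℂ) :=
    Complex.ofRealCLM.contDiff.comp D.lsm
  obtain ⟨Cl, hCl⟩ := PD.SHBasC_bdd (hlsm.continuous_fderiv (by simp)) (PD.SHBasC_per hlper)
  have hCl0 : 0 ≤ Cl := (norm_nonneg _).trans (hCl 0)
  have hs0 : 0 < Real.sqrt c₀ := Real.sqrt_pos.2 hc₀
  refine ⟨ck D.al * (2 + Cl / Real.sqrt c₀), by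
    have := ck_nonneg D.al
    positivity, fun P x hP hx i k => ?_⟩
  have hlx := D.lpos x
  have hP0 : Real.sqrt c₀ ≤ ‖P x‖ := by
    rw [Real.sqrt_le_left (norm_nonneg _)]
    exact (hl x).1.trans hx
  have hPp : 0 < ‖P x‖ := hs0.trans_le hP0
  have hne : P x ≠ 0 := norm_pos_iff.1 hPp
  rw [pd_fm D hP hne, fderiv_cov D hP hne]
  refine (cov_im_le _ _ _ _).trans ?_
  rw [mul_assoc]
  refine mul_le_mul_of_nonneg_left ?_ (ck_nonneg _)
  rw [fderiv_q D hP hne]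
  set t := ‖fderiv ℝ P x (Pi.single k 1)‖ with ht
  have ht0 : 0 ≤ t := norm_nonneg _
  have h1 : ‖fderiv ℝ (fun y => (D.l y : ℂ)) x (Pi.single k 1)‖ ≤ Cl := by
    refine ((fderiv ℝ (fun y => (D.l y : ℂ)) x).le_opNorm _).trans ?_
    have h2 : ‖(Pi.single k 1 : V2)‖ ≤ 1 := by
      rw [Pi.norm_single]
      simp
    calc _ ≤ Cl * 1 := mul_le_mul (hCl x) h2 (norm_nonneg _) hCl0
      _ = Cl := mul_one _
  have h2 : ‖(D.l x : ℂ) / P x * fderiv ℝ P x (Pi.single k 1)‖ ≤ ‖P x‖ * t := by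
    rw [norm_mul, norm_div, Complex.norm_real, Real.norm_of_nonneg hlx.le]
    refine mul_le_mul_of_nonneg_right ?_ ht0
    rw [div_le_iff₀ hPp]
    linarith [sq ‖P x‖]
  have h3 : ‖(fderiv ℝ (fun y => (D.l y : ℂ)) x (Pi.single k 1) -
      (D.l x : ℂ) / P x * fderiv ℝ P x (Pi.single k 1)) / P x‖ ≤ Cl / Real.sqrt c₀ + t := by
    rw [norm_div, div_le_iff₀ hPp]
    calc _ ≤ Cl + ‖P x‖ * t := (norm_sub_le _ _).trans (add_le_add h1 h2)
      _ ≤ _ := by
        have h4 : Cl ≤ Cl / Real.sqrt c₀ * ‖P x‖ := by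
          rw [div_mul_eq_mul_div, le_div_iff₀ hs0]
          gcongr
        linarith [mul_comm t ‖P x‖]
  have h4 : 0 ≤ Cl / Real.sqrt c₀ := by positivity
  nlinarith

/-- closedness of the real form -/
theorem fm_closed (D : PD) {P : V2 → ℂ} {x : V2} (hP : DifferentiableAt ℝ P x) (hne : P x ≠ 0)
    (h : dd (cj D.al) P x = dd D.al (fun y => (D.l y : ℂ) / P y) x) :
    pd 0 (fm D P 1) x = pd 1 (fm D P 0) x := by
  rw [pd_fm D hP hne, pd_fm D hP hne,
    cov_closed D.al D.hal (P := P) (Q := fun y => (D.l y : ℂ) / P y) hP (diff_q D hP hne) h]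

theorem fm_smooth (D : PD) {P : V2 → ℂ} (hP : ContDiff ℝ (⊤ : ℕ∞) P) (hne : ∀ x, P x ≠ 0)
    (i : Fin 2) : ContDiff ℝ (⊤ : ℕ∞) (fm D P i) := by
  have hlsm : ContDiff ℝ (⊤ : ℕ∞) fun y => (D.l y : ℂ) :=
    Complex.ofRealCLM.contDiff.comp D.lsm
  have hq : ContDiff ℝ (⊤ : ℕ∞) fun y => (D.l y : ℂ) / P y := by
    simp only [div_eq_mul_inv]
    exact hlsm.mul (hP.inv hne)
  have e : fm D P i = fun y =>
      (cov D.al 1 0 i * P y + cov D.al 0 1 i * ((D.l y : ℂ) / P y)).im :=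
    funext fun y => by
      unfold fm
      rw [cov_lin]
  rw [e]
  exact Complex.imCLM.contDiff.comp ((contDiff_const.mul hP).add (contDiff_const.mul hq))

theorem fm_cont (D : PD) {P : V2 → ℂ} (hP : Continuous P) (hne : ∀ x, P x ≠ 0)
    (i : Fin 2) : Continuous (fm D P i) := by
  have hq : Continuous fun y => (D.l y : ℂ) / P y :=
    (Complex.continuous_ofReal.comp D.lsm.continuous).div hP hne
  have e : fm D P i = fun y =>
      (cov D.al 1 0 i * P y + cov D.al 0 1 i * ((D.l y : ℂ) / P y)).im :=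
    funext fun y => by
      unfold fm
      rw [cov_lin]
  rw [e]
  exact Complex.continuous_im.comp ((continuous_const.mul hP).add (continuous_const.mul hq))

theorem fm_per (D : PD) {P : V2 → ℂ} (hP : Per P) (i : Fin 2) : Per (fm D P i) := by
  intro x k
  unfold fm
  rw [hP x k, D.lper x k]

theorem fm_zero (D : PD) {P : V2 → ℂ} {x : V2} (h : ‖P x‖ ^ 2 = D.l x) (i : Fin 2) :
    fm D P i x = 0 := by
  have hne : P x ≠ 0 := by
    intro h0
    rw [h0, norm_zero, zero_pow (by norm_num)] at h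
    exact (D.lpos x).ne h
  have h1 : (D.l x : ℂ) / P x = (starRingEnd ℂ) (P x) := by
    rw [div_eq_iff hne, ← h, mul_comm, Complex.mul_conj, Complex.normSq_eq_norm_sq]
  unfold fm
  rw [h1]
  exact cov_real D.al D.hal (P x) i

end Pool.W4b1b5d.TR
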