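import Mathlib

/-!
# Integrals of `|w - b|^(-γ)`
-/

set_option autoImplicit false

open Set Filter MeasureTheory Topology

namespace Pool.W4b1b5d.TR

theorem rpow_lint_base {γ : ℝ} (h1 : γ < 1) :
    ∫⁻ u : ℝ, (Icc (-1 : ℝ) 1).indicator (fun u => ENNReal.ofReal (|u| ^ (-γ))) u < ⊤ := by
  obtain ⟨h, hh⟩ : ∃ h : ℝ → ENNReal, h = (Icc (0 : ℝ) 1).indicator
    (fun u => ENNReal.ofReal (u ^ (-γ))) := ⟨_, rfl⟩
  have hm : Measurable h := by
    rw [hh]
    exact (measurable_id.pow_const _).ennreal_ofReal.indicator measurableSet_Icc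
  have hfin : ∫⁻ u, h u < ⊤ := by
    rw [hh, lintegral_indicator measurableSet_Icc]
    have h3 : IntervalIntegrable (fun u : ℝ => u ^ (-γ)) volume 0 1 :=
      intervalIntegral.intervalIntegrable_rpow' (by linarith)
    rw [intervalIntegrable_iff_integrableOn_Icc_of_le zero_le_one] at h3
    exact h3.lintegral_lt_top
  have hle : ∀ u : ℝ, (Icc (-1 : ℝ) 1).indicator (fun u => ENNReal.ofReal (|u| ^ (-γ))) u ≤
      h u + h (-u) := by
    intro u
    by_cases hu : u ∈ Icc (-1 : ℝ) 1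
    · rw [indicator_of_mem hu]
      rcases le_total 0 u with h0 | h0
      · have hu' : u ∈ Icc (0 : ℝ) 1 := ⟨h0, hu.2⟩
        have : h u = ENNReal.ofReal (|u| ^ (-γ)) := by
          rw [hh, indicator_of_mem hu', abs_of_nonneg h0]
        rw [← this]
        exact le_self_add
      · have hu' : -u ∈ Icc (0 : ℝ) 1 := ⟨by linarith, by linarith [hu.1]⟩
        have : h (-u) = ENNReal.ofReal (|u| ^ (-γ)) := by
          rw [hh, indicator_of_mem hu', abs_of_nonpos h0]
        rw [← this]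
        exact le_add_self
    · rw [indicator_of_notMem hu]
      exact zero_le
  refine (lintegral_mono hle).trans_lt ?_
  rw [lintegral_add_left hm, lintegral_neg_eq_self (μ := volume) h]
  exact ENNReal.add_lt_top.2 ⟨hfin, hfin⟩

theorem rpow_lint {γ : ℝ} (h0 : 0 ≤ γ) (h1 : γ < 1) : ∃ K : ℝ, 0 ≤ K ∧ ∀ (b N : ℝ), 0 ≤ N →
    ∫⁻ w in Icc (-N) N, ENNReal.ofReal (|w - b| ^ (-γ)) ≤ ENNReal.ofReal (2 * N + K) := by
  obtain ⟨g, hg⟩ : ∃ g : ℝ → ENNReal, g = (Icc (-1 : ℝ) 1).indicator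
    (fun u => ENNReal.ofReal (|u| ^ (-γ))) := ⟨_, rfl⟩
  have hK := rpow_lint_base h1
  rw [← hg] at hK
  refine ⟨(∫⁻ u, g u).toReal, ENNReal.toReal_nonneg, fun b N hN => ?_⟩
  have hgm : Measurable g := by
    rw [hg]
    exact ((continuous_abs.measurable).pow_const _).ennreal_ofReal.indicator measurableSet_Icc
  have hle : ∀ w : ℝ, ENNReal.ofReal (|w - b| ^ (-γ)) ≤ 1 + g (w - b) := by
    intro w
    by_cases hw : w - b ∈ Icc (-1 : ℝ) 1
    · rw [hg, indicator_of_mem hw]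
      exact le_add_self
    · refine le_trans ?_ le_self_add
      rw [← ENNReal.ofReal_one]
      refine ENNReal.ofReal_le_ofReal ?_
      have h2 : 1 ≤ |w - b| := by
        by_contra h3
        push Not at h3
        rw [abs_lt] at h3
        exact hw ⟨h3.1.le, h3.2.le⟩
      exact Real.rpow_le_one_of_one_le_of_nonpos h2 (by linarith)
  calc ∫⁻ w in Icc (-N) N, ENNReal.ofReal (|w - b| ^ (-γ))
      ≤ ∫⁻ w in Icc (-N) N, (1 + g (w - b)) := lintegral_mono hle
    _ = (∫⁻ _ in Icc (-N) N, 1) + ∫⁻ w in Icc (-N) N, g (w - b) :=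
        lintegral_add_left measurable_const _
    _ ≤ ENNReal.ofReal (2 * N) + ∫⁻ w, g (w - b) := by
        refine add_le_add ?_ (lintegral_mono' Measure.restrict_le_self le_rfl)
        rw [lintegral_const, Measure.restrict_apply_univ, Real.volume_Icc, one_mul]
        refine ENNReal.ofReal_le_ofReal (by linarith)
    _ = ENNReal.ofReal (2 * N) + ∫⁻ w, g w := by
        rw [lintegral_sub_right_eq_self (μ := volume) g b]
    _ = ENNReal.ofReal (2 * N + (∫⁻ u, g u).toReal) := by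
        rw [ENNReal.ofReal_add (by linarith) ENNReal.toReal_nonneg, ENNReal.ofReal_toReal hK.ne]

theorem sum_lint {γ : ℝ} (h0 : 0 ≤ γ) (h1 : γ < 1) : ∃ K : ℝ, 0 ≤ K ∧
    ∀ (s : Finset ℂ) (f : ℂ → ℝ) (N C : ℝ), 0 ≤ N → 0 ≤ C →
    ∫⁻ w in Icc (-N) N, ENNReal.ofReal (C * (1 + ∑ c ∈ s, |w - f c| ^ (-γ))) ≤
      ENNReal.ofReal (C * (2 * N + s.card * (2 * N + K))) := by
  obtain ⟨K, hK, h⟩ := rpow_lint h0 h1
  refine ⟨K, hK, fun s f N C hN hC => ?_⟩
  have hm : ∀ b : ℝ, Measurable fun w : ℝ => ENNReal.ofReal (|w - b| ^ (-γ)) := fun b =>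
    (((continuous_id.sub continuous_const).abs.measurable).pow_const _).ennreal_ofReal
  have e1 : ∀ w : ℝ, ENNReal.ofReal (C * (1 + ∑ c ∈ s, |w - f c| ^ (-γ))) =
      ENNReal.ofReal C * (1 + ∑ c ∈ s, ENNReal.ofReal (|w - f c| ^ (-γ))) := by
    intro w
    have hs : 0 ≤ ∑ c ∈ s, |w - f c| ^ (-γ) :=
      Finset.sum_nonneg fun i _ => Real.rpow_nonneg (abs_nonneg _) _
    rw [ENNReal.ofReal_mul hC, ENNReal.ofReal_add zero_le_one hs, ENNReal.ofReal_one,
      ENNReal.ofReal_sum_of_nonneg fun i _ => Real.rpow_nonneg (abs_nonneg _) _]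
  simp only [e1]
  have hm2 : Measurable fun w : ℝ =>
      (1 : ENNReal) + ∑ c ∈ s, ENNReal.ofReal (|w - f c| ^ (-γ)) :=
    measurable_const.add (Finset.measurable_sum _ fun c _ => hm _)
  rw [lintegral_const_mul _ hm2, lintegral_add_left measurable_const,
    lintegral_finsetSum _ fun c _ => hm _]
  rw [ENNReal.ofReal_mul hC, ENNReal.ofReal_add (by linarith) (by positivity)]
  refine mul_le_mul_right (add_le_add ?_ ?_) _
  · rw [lintegral_const, Measure.restrict_apply_univ, Real.volume_Icc, one_mul]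
    exact ENNReal.ofReal_le_ofReal (by linarith)
  · refine (Finset.sum_le_sum fun c _ => h (f c) N hN).trans ?_
    rw [Finset.sum_const, nsmul_eq_mul, ENNReal.ofReal_mul (Nat.cast_nonneg _),
      ENNReal.ofReal_natCast]

end Pool.W4b1b5d.TR
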