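import Pool.Agent.W_4b1b5d_h35.TrMaj
import Pool.Agent.W_4b1b5d_h35.TrLint
import Pool.Agent.W_4b1b5d_h66.SHGlueE

/-!
# Integrability of `sup_n 1 / |R_Y|` along a sheet for almost every real value
-/

set_option autoImplicit false

open Set Filter MeasureTheory Topology

namespace Pool.W4b1b5d.TR

open Pool.W4b1b5d.H3 Pool.W4b1b5d.SH

/-- heights -/
noncomputable def tn (τ : ℝ) (n : ℕ) : ℝ := τ / ((n : ℝ) + 2)

/-- the approximating values -/
noncomputable def vn (s τ : ℝ) (n : ℕ) (w : ℝ) : ℂ :=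
  (w : ℂ) + ((s * tn τ n : ℝ) : ℂ) * Complex.I

theorem tn_pos {τ : ℝ} (hτ : 0 < τ) (n : ℕ) : 0 < tn τ n := by
  unfold tn
  positivity

theorem tn_lt {τ : ℝ} (hτ : 0 < τ) (n : ℕ) : tn τ n < τ := by
  unfold tn
  rw [div_lt_iff₀ (by positivity)]
  have : (0 : ℝ) ≤ n := Nat.cast_nonneg n
  nlinarith

theorem vn_im (s τ : ℝ) (n : ℕ) (w : ℝ) : (vn s τ n w).im = s * tn τ n := by
  simp [vn]

theorem vn_re (s τ : ℝ) (n : ℕ) (w : ℝ) : (vn s τ n w).re = w := by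
  simp [vn]

theorem vn_mem {s τ : ℝ} (hs : s = 1 ∨ s = -1) (hτ : 0 < τ) (n : ℕ) (w : ℝ) :
    vn s τ n w ∈ Ks s τ := by
  have h2 : s * s = 1 := by rcases hs with h | h <;> rw [h] <;> norm_num
  refine ⟨?_, ?_⟩ <;> rw [vn_im, ← mul_assoc, h2, one_mul]
  · exact tn_pos hτ n
  · exact tn_lt hτ n

theorem vn_dist {s τ : ℝ} (hs : s = 1 ∨ s = -1) (hτ : 0 < τ) (n : ℕ) (w : ℝ) :
    ‖vn s τ n w - w‖ = tn τ n := by
  have h2 : |s| = 1 := by rcases hs with h | h <;> rw [h] <;> norm_num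
  have h3 : vn s τ n w - w = ((s * tn τ n : ℝ) : ℂ) * Complex.I := by
    unfold vn
    ring
  rw [h3, norm_mul, Complex.norm_I, mul_one, Complex.norm_real, Real.norm_eq_abs, abs_mul, h2,
    one_mul, abs_of_pos (tn_pos hτ n)]

theorem vn_cont (s τ : ℝ) (n : ℕ) : Continuous (vn s τ n) := by
  unfold vn
  fun_prop

variable {D : PD} {s τ : ℝ}

theorem P_ne (S : Sh D 2 s τ) (j : Fin S.n) (x : V2) {v : ℂ} (hv : v ∈ Us s τ) :
    S.P j x v ≠ 0 := by
  intro h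
  have h1 := S.le j x v hv
  rw [h, norm_zero, zero_pow (by norm_num)] at h1
  exact absurd (D.lpos x) (not_lt.2 h1)

theorem cont_Pn (hs : s = 1 ∨ s = -1) (hτ : 0 < τ) (S : Sh D 2 s τ) (j : Fin S.n) (n : ℕ) :
    Continuous fun z : V2 × ℝ => S.P j z.1 (vn s τ n z.2) := by
  have h1 := S.cont j
  have h2 : Continuous fun z : V2 × ℝ => ((z.1, vn s τ n z.2) : V2 × ℂ) :=
    continuous_fst.prodMk ((vn_cont s τ n).comp continuous_snd)
  exact h1.comp_continuous h2 fun z => ⟨mem_univ _, Sh.SHGlueE_sub s τ (vn_mem hs hτ n z.2)⟩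

theorem cont_Rn (hs : s = 1 ∨ s = -1) (hτ : 0 < τ) (S : Sh D 2 s τ) (j : Fin S.n) (n : ℕ) :
    Continuous fun z : V2 × ℝ => D.R 1 z.1 (S.P j z.1 (vn s τ n z.2) ^ 2) := by
  have h1 := (cont_Pn hs hτ S j n).pow 2
  refine continuous_iff_continuousAt.2 fun z => ?_
  have h2 : S.P j z.1 (vn s τ n z.2) ^ 2 ≠ 0 :=
    pow_ne_zero _ (P_ne S j z.1 (Sh.SHGlueE_sub s τ (vn_mem hs hτ n z.2)))
  have h3 : ContinuousAt (fun z : V2 × ℂ => D.R 1 z.1 z.2)
      (z.1, S.P j z.1 (vn s τ n z.2) ^ 2) := (D.R_smooth 1 h2).continuousAt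
  have h4 : ContinuousAt (fun z : V2 × ℝ => ((z.1, S.P j z.1 (vn s τ n z.2) ^ 2) : V2 × ℂ)) z :=
    (continuous_fst.prodMk h1).continuousAt
  exact ContinuousAt.comp (f := fun z : V2 × ℝ => ((z.1, S.P j z.1 (vn s τ n z.2) ^ 2) : V2 × ℂ))
    (g := fun z : V2 × ℂ => D.R 1 z.1 z.2) h3 h4

/-- `1 / |R_Y|` along the sheet at height `n`. -/
noncomputable def fn (S : Sh D 2 s τ) (j : Fin S.n) (n : ℕ) (z : V2 × ℝ) : ℝ :=
  ‖D.R 1 z.1 (S.P j z.1 (vn s τ n z.2) ^ 2)‖⁻¹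

theorem fn_cont (hs : s = 1 ∨ s = -1) (hτ : 0 < τ) (hH : Ks s τ ⊆ D.H) (S : Sh D 2 s τ)
    (j : Fin S.n) (n : ℕ) : Continuous (fn S j n) :=
  (cont_Rn hs hτ S j n).norm.inv₀ fun z =>
    norm_ne_zero_iff.2 (Sh.SHGlueE_R1 hH S j z.1 (vn_mem hs hτ n z.2))

/-- the supremum over the heights -/
noncomputable def FS (S : Sh D 2 s τ) (j : Fin S.n) (z : V2 × ℝ) : ENNReal :=
  ⨆ n, ENNReal.ofReal (fn S j n z)

theorem FS_meas (hs : s = 1 ∨ s = -1) (hτ : 0 < τ) (hH : Ks s τ ⊆ D.H) (S : Sh D 2 s τ)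
    (j : Fin S.n) : Measurable (FS S j) :=
  Measurable.iSup fun n => (fn_cont hs hτ hH S j n).measurable.ennreal_ofReal

/-- Bound on the value of the outer solutions. -/
theorem Y_bound (hs : s = 1 ∨ s = -1) (hτ : 0 < τ) (S : Sh D 2 s τ) (j : Fin S.n) :
    ∃ C : ℝ, 0 < C ∧ ∀ (n : ℕ) (x : V2) (w N : ℝ), |w| ≤ N →
      ‖S.P j x (vn s τ n w) ^ 2‖ ≤ C * (1 + (N + τ)) := by
  obtain ⟨C, hC, h, -⟩ := D.R_bound
  refine ⟨C, hC, fun n x w N hw => ?_⟩
  have hv := Sh.SHGlueE_sub s τ (vn_mem hs hτ n w)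
  have h1 := h x (S.P j x (vn s τ n w) ^ 2) (by
    rw [norm_pow]
    exact S.le j x _ hv)
  rw [S.root j x _ hv] at h1
  have h2 : ‖vn s τ n w‖ ≤ N + τ := by
    have h3 := norm_le_norm_add_norm_sub' (vn s τ n w) (w : ℂ)
    rw [vn_dist hs hτ n w, Complex.norm_real, Real.norm_eq_abs] at h3
    have := (tn_lt hτ n).le
    linarith
  refine h1.trans ?_
  gcongr

theorem FS_lint (hs : s = 1 ∨ s = -1) (hτ : 0 < τ) (hH : Ks s τ ⊆ D.H) (S : Sh D 2 s τ)
    (j : Fin S.n) (N : ℝ) (hN : 0 ≤ N) : ∃ K : ℝ, ∀ x : V2,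
      ∫⁻ w in Icc (-N) N, FS S j (x, w) ≤ ENNReal.ofReal K := by
  obtain ⟨CY, hCY, hY⟩ := Y_bound hs hτ S j
  obtain ⟨C, hC, hmaj⟩ := maj D (CY * (1 + (N + τ)))
  obtain ⟨K, hK, hsum⟩ := sum_lint (gam_nonneg D.M) (gam_lt D.M)
  refine ⟨C * (2 * N + (2 * D.M : ℕ) * (2 * N + K)), fun x => ?_⟩
  have hdeg := (D.dpol_deg x).1
  have hcard : (D.dpol x).roots.toFinset.card ≤ 2 * D.M := by
    refine (Multiset.toFinset_card_le _).trans ?_
    rw [← hdeg]
    exact Polynomial.card_roots' _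
  have hae : ∀ᵐ w ∂(volume.restrict (Icc (-N) N)), FS S j (x, w) ≤
      ENNReal.ofReal (C * (1 + ∑ c ∈ (D.dpol x).roots.toFinset,
        |w - (D.R 0 x c).re| ^ (-gam D.M))) := by
    have h1 : ∀ᵐ w : ℝ, w ∉ (((D.dpol x).roots.toFinset.image fun c => (D.R 0 x c).re : Finset ℝ) :
        Set ℝ) := by
      rw [ae_iff]
      simp only [not_not]
      exact Set.Finite.measure_zero (Finset.finite_toSet _) _
    filter_upwards [ae_restrict_of_ae h1, ae_restrict_mem measurableSet_Icc] with w hw hwN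
    refine iSup_le fun n => ENNReal.ofReal_le_ofReal ?_
    have hv := Sh.SHGlueE_sub s τ (vn_mem hs hτ n w)
    have hroot := S.root j x _ hv
    have hre : (D.R 0 x (S.P j x (vn s τ n w) ^ 2)).re = w := by
      rw [hroot, vn_re]
    have := hmaj x (S.P j x (vn s τ n w) ^ 2) (by
      rw [norm_pow]
      exact S.le j x _ hv) (hY n x w N (abs_le.2 hwN))
      (Sh.SHGlueE_R1 hH S j x (vn_mem hs hτ n w)) (fun c hc h => by
        rw [hre] at h
        refine hw ?_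
        rw [Finset.mem_coe, Finset.mem_image]
        exact ⟨c, hc, h.symm⟩)
    rw [hre] at this
    exact this
  refine (lintegral_mono_ae hae).trans ((hsum _ _ N C hN hC.le).trans ?_)
  refine ENNReal.ofReal_le_ofReal ?_
  have : ((D.dpol x).roots.toFinset.card : ℝ) ≤ ((2 * D.M : ℕ) : ℝ) := by
    exact_mod_cast hcard
  gcongr

/-- Integrable over boxes for almost every `w`. -/
theorem FS_ae (hs : s = 1 ∨ s = -1) (hτ : 0 < τ) (hH : Ks s τ ⊆ D.H) (S : Sh D 2 s τ)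
    (j : Fin S.n) : ∀ᵐ w : ℝ, ∀ a b : V2, ∫⁻ x in Icc a b, FS S j (x, w) < ⊤ := by
  have key : ∀ (N : ℕ) (m : ℕ), ∀ᵐ w : ℝ, w ∈ Icc (-(N : ℝ)) N →
      ∫⁻ x in Icc (fun _ => -(m : ℝ) : V2) (fun _ => (m : ℝ)), FS S j (x, w) < ⊤ := by
    intro N m
    obtain ⟨K, hK⟩ := FS_lint hs hτ hH S j N (Nat.cast_nonneg N)
    rw [← ae_restrict_iff' measurableSet_Icc]
    have hmeas := FS_meas hs hτ hH S j
    have hmeas2 : Measurable fun w : ℝ =>
        ∫⁻ x in Icc (fun _ => -(m : ℝ) : V2) (fun _ => (m : ℝ)), FS S j (x, w) :=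
      (hmeas.comp measurable_swap).lintegral_prod_right'
    refine ae_lt_top hmeas2 (ne_of_lt ?_)
    have hswap : ∫⁻ w in Icc (-(N : ℝ)) N,
        ∫⁻ x in Icc (fun _ => -(m : ℝ) : V2) (fun _ => (m : ℝ)), FS S j (x, w) =
        ∫⁻ x in Icc (fun _ => -(m : ℝ) : V2) (fun _ => (m : ℝ)),
          ∫⁻ w in Icc (-(N : ℝ)) N, FS S j (x, w) := by
      rw [lintegral_lintegral_swap]
      exact (hmeas.comp measurable_swap).aemeasurable
    rw [hswap]
    refine (lintegral_mono fun x => hK x).trans_lt ?_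
    rw [lintegral_const, Measure.restrict_apply_univ]
    exact ENNReal.mul_lt_top ENNReal.ofReal_lt_top (isCompact_Icc.measure_lt_top)
  have key2 : ∀ᵐ w : ℝ, ∀ (N m : ℕ), w ∈ Icc (-(N : ℝ)) N →
      ∫⁻ x in Icc (fun _ => -(m : ℝ) : V2) (fun _ => (m : ℝ)), FS S j (x, w) < ⊤ := by
    rw [ae_all_iff]
    intro N
    rw [ae_all_iff]
    exact fun m => key N m
  filter_upwards [key2] with w hw a b
  obtain ⟨N, hN⟩ := exists_nat_ge |w|
  obtain ⟨m, hm⟩ := exists_nat_ge (∑ i, (|a i| + |b i|))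
  refine lt_of_le_of_lt ?_ (hw N m (abs_le.1 hN))
  refine lintegral_mono_set fun x hx => ⟨fun i => ?_, fun i => ?_⟩
  · have h1 : |a i| + |b i| ≤ ∑ i, (|a i| + |b i|) :=
      Finset.single_le_sum (f := fun i => |a i| + |b i|) (fun i _ => by positivity)
        (Finset.mem_univ i)
    have h2 := hx.1 i
    have h3 := neg_abs_le (a i)
    have h4 := abs_nonneg (b i)
    show -(m : ℝ) ≤ x i
    linarith
  · have h1 : |a i| + |b i| ≤ ∑ i, (|a i| + |b i|) :=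
      Finset.single_le_sum (f := fun i => |a i| + |b i|) (fun i _ => by positivity)
        (Finset.mem_univ i)
    have h2 := hx.2 i
    have h3 := le_abs_self (b i)
    have h4 := abs_nonneg (a i)
    show x i ≤ (m : ℝ)
    linarith

/-- The majorant `G`. -/
theorem exists_G (hs : s = 1 ∨ s = -1) (hτ : 0 < τ) (hH : Ks s τ ⊆ D.H) (S : Sh D 2 s τ)
    (j : Fin S.n) : ∀ᵐ w : ℝ, ∃ g : V2 → ℝ, (∀ a b : V2, IntegrableOn g (Icc a b)) ∧
      (∀ x, 0 ≤ g x) ∧ ∀ᵐ x : V2, ∀ n, fn S j n (x, w) ≤ g x := by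
  filter_upwards [FS_ae hs hτ hH S j] with w hw
  have hmeas : Measurable fun x : V2 => FS S j (x, w) :=
    (FS_meas hs hτ hH S j).comp (measurable_id.prodMk measurable_const)
  refine ⟨fun x => (FS S j (x, w)).toReal, fun a b => ?_, fun x => ENNReal.toReal_nonneg, ?_⟩
  · exact integrable_toReal_of_lintegral_ne_top hmeas.aemeasurable (hw a b).ne
  · have h1 : ∀ m : ℕ, ∀ᵐ x : V2, x ∈ Icc (fun _ => -(m : ℝ) : V2) (fun _ => (m : ℝ)) →
        FS S j (x, w) < ⊤ := by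
      intro m
      rw [← ae_restrict_iff' measurableSet_Icc]
      exact ae_lt_top hmeas (hw _ _).ne
    have h2 : ∀ᵐ x : V2, ∀ m : ℕ, x ∈ Icc (fun _ => -(m : ℝ) : V2) (fun _ => (m : ℝ)) →
        FS S j (x, w) < ⊤ := ae_all_iff.2 h1
    filter_upwards [h2] with x hx n
    obtain ⟨m, hm⟩ := exists_nat_ge (∑ i, |x i|)
    have h3 : FS S j (x, w) < ⊤ := by
      refine hx m ⟨fun i => ?_, fun i => ?_⟩
      · have h1 : |x i| ≤ ∑ i, |x i| :=
          Finset.single_le_sum (f := fun i => |x i|) (fun i _ => abs_nonneg _) (Finset.mem_univ i)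
        have h3 := neg_abs_le (x i)
        show -(m : ℝ) ≤ x i
        linarith
      · have h1 : |x i| ≤ ∑ i, |x i| :=
          Finset.single_le_sum (f := fun i => |x i|) (fun i _ => abs_nonneg _) (Finset.mem_univ i)
        have h3 := le_abs_self (x i)
        show x i ≤ (m : ℝ)
        linarith
    rw [← ENNReal.ofReal_le_iff_le_toReal h3.ne]
    exact le_iSup (fun n => ENNReal.ofReal (fn S j n (x, w))) n

end Pool.W4b1b5d.TR
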