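import Pool.Agent.W_4b1b5d_h66.SHBasic
import Pool.Agent.W_4b1b5d_h66.SHPoly

/-!
# The majorant of `1 / R_Y`
-/

set_option autoImplicit false

namespace Pool.W4b1b5d.TR

open Pool.W4b1b5d.H3 Pool.W4b1b5d.SH Polynomial Set

/-- `γ = 2M / (2M + 1)` -/
noncomputable def gam (M : ℕ) : ℝ := (2 * (M : ℝ)) / (2 * M + 1)

theorem gam_nonneg (M : ℕ) : 0 ≤ gam M := by
  unfold gam
  positivity

theorem gam_lt (M : ℕ) : gam M < 1 := by
  unfold gam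
  rw [div_lt_one (by positivity)]
  linarith

theorem gam_pow (M : ℕ) {u : ℝ} (hu : 0 < u) :
    (u ^ (-gam M)) ^ (2 * M + 1) = (u ^ (2 * M))⁻¹ := by
  rw [← Real.rpow_natCast (u ^ (-gam M)), ← Real.rpow_mul hu.le, ← Real.rpow_natCast u (2 * M),
    ← Real.rpow_neg hu.le]
  congr 1
  unfold gam
  push_cast
  field_simp

/-- the algebra of the majorant -/
theorem maj_alg (M : ℕ) {u r δ A K : ℝ} (hu : 0 < u) (hr : 0 < r) (hA : 0 ≤ A)
    (h1 : u ≤ A * r * δ) (h2 : δ ^ (2 * M) ≤ K * r) :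
    r⁻¹ ≤ (max 1 (A ^ (2 * M) * K)) * u ^ (-gam M) := by
  set C := max 1 (A ^ (2 * M) * K) with hC
  have hC1 : 1 ≤ C := le_max_left _ _
  have hCK : A ^ (2 * M) * K ≤ C := le_max_right _ _
  have hu0 : 0 ≤ u ^ (-gam M) := (Real.rpow_pos_of_pos hu _).le
  have h3 : u ^ (2 * M) ≤ (A ^ (2 * M) * K) * r ^ (2 * M + 1) := by
    calc u ^ (2 * M) ≤ (A * r * δ) ^ (2 * M) := pow_le_pow_left₀ hu.le h1 _
      _ = A ^ (2 * M) * r ^ (2 * M) * δ ^ (2 * M) := by rw [mul_pow, mul_pow]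
      _ ≤ A ^ (2 * M) * r ^ (2 * M) * (K * r) :=
          mul_le_mul_of_nonneg_left h2 (by positivity)
      _ = _ := by ring
  have h4 : (r⁻¹) ^ (2 * M + 1) ≤ (C * u ^ (-gam M)) ^ (2 * M + 1) := by
    rw [mul_pow, gam_pow M hu, inv_pow]
    have hup : 0 < u ^ (2 * M) := pow_pos hu _
    have hrp : 0 < r ^ (2 * M + 1) := pow_pos hr _
    have h5 : C ≤ C ^ (2 * M + 1) := le_self_pow₀ hC1 (by omega)
    rw [← div_eq_mul_inv, le_div_iff₀ hup, inv_mul_le_iff₀ hrp]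
    calc u ^ (2 * M) ≤ (A ^ (2 * M) * K) * r ^ (2 * M + 1) := h3
      _ ≤ C ^ (2 * M + 1) * r ^ (2 * M + 1) :=
          mul_le_mul_of_nonneg_right (hCK.trans h5) hrp.le
      _ = _ := by ring
  exact (pow_le_pow_iff_left₀ (inv_nonneg.2 hr.le) (by positivity) (by omega)).1 h4

theorem maj (D : PD) (ρ : ℝ) : ∃ C : ℝ, 0 < C ∧ ∀ (x : V2) (Y : ℂ), D.l x ≤ ‖Y‖ → ‖Y‖ ≤ ρ →
    D.R 1 x Y ≠ 0 →
    (∀ c ∈ (D.dpol x).roots.toFinset, (D.R 0 x Y).re ≠ (D.R 0 x c).re) →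
    ‖D.R 1 x Y‖⁻¹ ≤ C * (1 + ∑ c ∈ (D.dpol x).roots.toFinset,
      |(D.R 0 x Y).re - (D.R 0 x c).re| ^ (-gam D.M)) := by
  obtain ⟨c₀, C₀, hc₀, hl⟩ := D.l_bounds
  have hM := D.hM
  obtain ⟨A, hA⟩ : ∃ A : ℝ, A = ‖(D.M : ℂ) * D.a‖ := ⟨_, rfl⟩
  have hA0 : 0 < A := by
    rw [hA]
    refine norm_pos_iff.2 (mul_ne_zero ?_ D.ha)
    exact_mod_cast (Nat.one_le_iff_ne_zero.1 hM)
  obtain ⟨P, hP⟩ : ∃ P : ℝ, P = (|ρ| + 1) ^ (D.M + 1) := ⟨_, rfl⟩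
  have hP0 : 0 < P := by
    rw [hP]
    positivity
  obtain ⟨C1, hC1⟩ : ∃ C1 : ℝ, C1 = P / (A * (c₀ / 2) ^ (2 * D.M)) := ⟨_, rfl⟩
  have hC10 : 0 < C1 := by
    rw [hC1]
    positivity
  obtain ⟨C2, hC2⟩ : ∃ C2 : ℝ, C2 = max 1 ((2 ^ (3 * D.M + 1)) ^ (2 * D.M) * (P / A)) := ⟨_, rfl⟩
  have hC20 : 0 < C2 := by
    rw [hC2]
    exact lt_max_of_lt_left one_pos
  refine ⟨C1 + C2, by positivity, fun x Y hY hYρ hR hne => ?_⟩
  obtain ⟨hdeg, hlead⟩ := D.dpol_deg x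
  have hp0 : D.dpol x ≠ 0 := by
    intro h
    rw [h, natDegree_zero] at hdeg
    omega
  obtain ⟨c, hc, h1, h2⟩ := near_root (D.dpol x) (by rw [hdeg]; omega) Y
  have hcm : c ∈ (D.dpol x).roots.toFinset := Multiset.mem_toFinset.2 ((mem_roots hp0).2 hc)
  rw [hdeg, hlead, ← hA] at h1
  rw [hdeg] at h2
  have hYc : c₀ ≤ ‖Y‖ := (hl x).1.trans hY
  have hYpos : 0 < ‖Y‖ := hc₀.trans_le hYc
  have hY0 : Y ≠ 0 := norm_pos_iff.1 hYpos
  have hr : 0 < ‖D.R 1 x Y‖ := norm_pos_iff.2 hR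
  have hpY : ‖(D.dpol x).eval Y‖ = ‖D.R 1 x Y‖ * ‖Y‖ ^ (D.M + 1) := by
    rw [← D.R_dpol x hY0, norm_mul, norm_pow]
  have hpY' : ‖(D.dpol x).eval Y‖ ≤ ‖D.R 1 x Y‖ * P := by
    rw [hpY, hP]
    have : ‖Y‖ ≤ |ρ| + 1 := by
      have := le_abs_self ρ
      linarith
    gcongr
  have hsum : 0 ≤ ∑ c ∈ (D.dpol x).roots.toFinset,
      |(D.R 0 x Y).re - (D.R 0 x c).re| ^ (-gam D.M) :=
    Finset.sum_nonneg fun i _ => Real.rpow_nonneg (abs_nonneg _) _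
  rcases le_or_gt (‖Y‖ / 2) ‖Y - c‖ with hd | hd
  · -- far from the roots
    have h3 : A * (c₀ / 2) ^ (2 * D.M) ≤ ‖D.R 1 x Y‖ * P := by
      refine le_trans ?_ (h1.trans hpY')
      have : c₀ / 2 ≤ ‖Y - c‖ := by linarith
      gcongr
    have h4 : ‖D.R 1 x Y‖⁻¹ ≤ C1 := by
      rw [hC1, inv_le_iff_one_le_mul₀ hr, div_mul_eq_mul_div, one_le_div (by positivity)]
      linarith
    calc ‖D.R 1 x Y‖⁻¹ ≤ C1 := h4
      _ ≤ (C1 + C2) * 1 := by linarith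
      _ ≤ _ := by
        gcongr
        linarith
  · -- close to a root
    have hseg : ∀ y ∈ segment ℝ Y c, ‖Y‖ / 2 ≤ ‖y‖ ∧ ‖D.R 1 x y‖ ≤ 2 ^ (3 * D.M + 1) * ‖D.R 1 x Y‖ := by
      intro y hy
      have h3 : ‖Y - y‖ ≤ ‖Y - c‖ := by
        obtain ⟨s, t, hs, ht, hst, rfl⟩ := hy
        have h4 : Y - (s • Y + t • c) = t • (Y - c) := by
          have : s = 1 - t := by linarith
          rw [this, sub_smul, one_smul, smul_sub]
          abel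
        rw [h4, norm_smul, Real.norm_of_nonneg ht]
        exact mul_le_of_le_one_left (norm_nonneg _) (by linarith)
      have h4 : ‖Y‖ / 2 ≤ ‖y‖ := by
        have := norm_le_norm_add_norm_sub' Y y
        linarith
      refine ⟨h4, ?_⟩
      have hy0 : y ≠ 0 := by
        intro h
        rw [h, norm_zero] at h4
        linarith
      have h5 := h2 y hy
      rw [hpY, ← D.R_dpol x hy0, norm_mul, norm_pow] at h5
      have hyp : 0 < ‖y‖ := norm_pos_iff.2 hy0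
      have h6 : ‖Y‖ ^ (D.M + 1) ≤ (2 * ‖y‖) ^ (D.M + 1) := by
        gcongr
        linarith
      have h7 : ‖D.R 1 x y‖ * ‖y‖ ^ (D.M + 1) ≤
          (2 ^ (3 * D.M + 1) * ‖D.R 1 x Y‖) * ‖y‖ ^ (D.M + 1) := by
        calc ‖D.R 1 x y‖ * ‖y‖ ^ (D.M + 1) ≤ 2 ^ (2 * D.M) * (‖D.R 1 x Y‖ * ‖Y‖ ^ (D.M + 1)) := h5
          _ ≤ 2 ^ (2 * D.M) * (‖D.R 1 x Y‖ * (2 * ‖y‖) ^ (D.M + 1)) := by gcongr
          _ = _ := by
            rw [mul_pow]
            have : (2 : ℝ) ^ (3 * D.M + 1) = 2 ^ (2 * D.M) * 2 ^ (D.M + 1) := by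
              rw [← pow_add]
              congr 1
              ring
            rw [this]
            ring
      exact le_of_mul_le_mul_right h7 (pow_pos hyp _)
    have hmv : ‖D.R 0 x c - D.R 0 x Y‖ ≤ 2 ^ (3 * D.M + 1) * ‖D.R 1 x Y‖ * ‖c - Y‖ := by
      refine Convex.norm_image_sub_le_of_norm_hasDerivWithin_le (f := fun y => D.R 0 x y)
        (f' := fun y => D.R 1 x y) (s := segment ℝ Y c) (fun y hy => ?_) (fun y hy => (hseg y hy).2)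
        (convex_segment _ _) (left_mem_segment _ _ _) (right_mem_segment _ _ _)
      have hy0 : y ≠ 0 := by
        intro h
        have := (hseg y hy).1
        rw [h, norm_zero] at this
        linarith
      exact (D.R_hasDerivAt 0 x hy0).hasDerivWithinAt
    have hu : 0 < |(D.R 0 x Y).re - (D.R 0 x c).re| := abs_pos.2 (sub_ne_zero.2 (hne c hcm))
    have hu1 : |(D.R 0 x Y).re - (D.R 0 x c).re| ≤ 2 ^ (3 * D.M + 1) * ‖D.R 1 x Y‖ * ‖Y - c‖ := by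
      rw [norm_sub_rev Y c]
      refine le_trans ?_ hmv
      rw [abs_sub_comm, ← Complex.sub_re]
      exact Complex.abs_re_le_norm _
    have h8 : ‖Y - c‖ ^ (2 * D.M) ≤ P / A * ‖D.R 1 x Y‖ := by
      rw [div_mul_eq_mul_div, le_div_iff₀ hA0]
      calc ‖Y - c‖ ^ (2 * D.M) * A = A * ‖Y - c‖ ^ (2 * D.M) := by ring
        _ ≤ ‖D.R 1 x Y‖ * P := h1.trans hpY'
        _ = _ := by ring
    have h9 := maj_alg D.M hu hr (by positivity) hu1 h8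
    rw [← hC2] at h9
    calc ‖D.R 1 x Y‖⁻¹ ≤ C2 * |(D.R 0 x Y).re - (D.R 0 x c).re| ^ (-gam D.M) := h9
      _ ≤ (C1 + C2) * |(D.R 0 x Y).re - (D.R 0 x c).re| ^ (-gam D.M) := by
        have := Real.rpow_nonneg (abs_nonneg ((D.R 0 x Y).re - (D.R 0 x c).re)) (-gam D.M)
        gcongr
        linarith
      _ ≤ _ := by
        have h10 := Finset.single_le_sum (f := fun c =>
          |(D.R 0 x Y).re - (D.R 0 x c).re| ^ (-gam D.M))
          (fun i _ => Real.rpow_nonneg (abs_nonneg _) _) hcm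
        gcongr
        linarith

end Pool.W4b1b5d.TR
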