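import Pool.Agent.W_4b1b5d_h35.TrRect
import Pool.Agent.W_4b1b5d_h3.Defs

/-!
# Primitives of forms which are closed over rectangles
-/

set_option autoImplicit false

open Set Filter MeasureTheory Topology

namespace Pool.W4b1b5d.TR

open Pool.W4b1b5d.H13 Pool.W4b1b5d.H3

theorem prim {A1 A2 : R2 → ℝ} (h1 : Continuous A1) (h2 : Continuous A2) (h : RC A1 A2) :
    ∃ psi : R2 → ℝ, ∀ x, HasFDerivAt psi (A1 x • ContinuousLinearMap.fst ℝ ℝ ℝ +
      A2 x • ContinuousLinearMap.snd ℝ ℝ ℝ) x := by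
  obtain ⟨f, hf⟩ : ∃ f : ℝ → ℝ → ℝ, f = fun s t =>
    (∫ u in (0:ℝ)..s, A1 (u, 0)) + ∫ u in (0:ℝ)..t, A2 (s, u) := ⟨_, rfl⟩
  have hf' : ∀ s t, f s t = (∫ u in (0:ℝ)..t, A2 (0, u)) + ∫ u in (0:ℝ)..s, A1 (u, t) := by
    intro s t
    rw [hf]
    exact h 0 s 0 t
  have c1 : ∀ t : ℝ, Continuous fun s : ℝ => A1 (s, t) := fun t => h1.comp (by fun_prop)
  have c2 : ∀ s : ℝ, Continuous fun t : ℝ => A2 (s, t) := fun s => h2.comp (by fun_prop)
  refine ⟨fun x => f x.1 x.2, fun x => ?_⟩
  have key := hasStrictFDerivAt_uncurry_coprod (𝕜 := ℝ) (u := x) (f := f)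
    (f₁ := fun s t => ContinuousLinearMap.toSpanSingleton ℝ (A1 (s, t)))
    (f₂ := fun s t => ContinuousLinearMap.toSpanSingleton ℝ (A2 (s, t)))
    (Eventually.of_forall fun v => by
      have e : (fun s => f s v.2) = fun s => (∫ u in (0:ℝ)..v.2, A2 (0, u)) +
          ∫ u in (0:ℝ)..s, A1 (u, v.2) := funext fun s => hf' s v.2
      rw [e]
      have := ((c1 v.2).integral_hasStrictDerivAt 0 v.1).hasDerivAt
      exact (this.const_add _).hasFDerivAt)
    (Eventually.of_forall fun v => by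
      have e : (fun t => f v.1 t) = fun t => (∫ u in (0:ℝ)..v.1, A1 (u, 0)) +
          ∫ u in (0:ℝ)..t, A2 (v.1, u) := by rw [hf]
      rw [e]
      have := ((c2 v.1).integral_hasStrictDerivAt 0 v.2).hasDerivAt
      exact (this.const_add _).hasFDerivAt)
    (by
      have : Continuous fun v : ℝ × ℝ => ContinuousLinearMap.toSpanSingleton ℝ (A1 (v.1, v.2)) := by
        have h3 : Continuous fun r : ℝ => ContinuousLinearMap.toSpanSingleton ℝ r :=
          (ContinuousLinearMap.toSpanSingletonCLE (𝕜 := ℝ) (E := ℝ)).continuous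
        exact h3.comp (h1.comp (by fun_prop))
      exact this.continuousAt)
    (by
      have : Continuous fun v : ℝ × ℝ => ContinuousLinearMap.toSpanSingleton ℝ (A2 (v.1, v.2)) := by
        have h3 : Continuous fun r : ℝ => ContinuousLinearMap.toSpanSingleton ℝ r :=
          (ContinuousLinearMap.toSpanSingletonCLE (𝕜 := ℝ) (E := ℝ)).continuous
        exact h3.comp (h2.comp (by fun_prop))
      exact this.continuousAt)
  have k2 := key.hasFDerivAt
  refine k2.congr_fderiv ?_
  refine ContinuousLinearMap.ext fun w => ?_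
  simp [Function.HasUncurry.uncurry, ContinuousLinearMap.toSpanSingleton_apply, mul_comm]

end Pool.W4b1b5d.TR
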