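import Pool.Agent.W_4b1b5d_h13.RectB

/-!
# Truncation of closed forms: rectangles

`W` open, `(a1, a2)` a continuous form which vanishes on the frontier of `W` and is the uniform limit
of smooth closed forms whose derivatives are bounded by one locally integrable function. Then
`1_W (a1, a2)` is closed over rectangles.
-/

set_option autoImplicit false

open Set Filter MeasureTheory Topology

namespace Pool.W4b1b5d.TR

open Pool.W4b1b5d.H13

/-- `|a|^2`. -/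
noncomputable def qq (a1 a2 : R2 → ℝ) (x : R2) : ℝ := a1 x * a1 x + a2 x * a2 x

theorem qq_smooth {a1 a2 : R2 → ℝ} (h1 : ContDiff ℝ (⊤ : ℕ∞) a1) (h2 : ContDiff ℝ (⊤ : ℕ∞) a2) :
    ContDiff ℝ (⊤ : ℕ∞) (qq a1 a2) := (h1.mul h1).add (h2.mul h2)

theorem qq_nonneg (a1 a2 : R2 → ℝ) (x : R2) : 0 ≤ qq a1 a2 x := by
  unfold qq
  nlinarith [mul_self_nonneg (a1 x), mul_self_nonneg (a2 x)]

/-- the truncated field. -/
noncomputable def FF (lam : ℝ → ℝ) (a1 a2 w : R2 → ℝ) (c : ℝ) (x : R2) : ℝ :=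
  lam (qq a1 a2 x * c) * w x

theorem FF_smooth {lam : ℝ → ℝ} (hl : ContDiff ℝ (⊤ : ℕ∞) lam) {a1 a2 w : R2 → ℝ}
    (h1 : ContDiff ℝ (⊤ : ℕ∞) a1) (h2 : ContDiff ℝ (⊤ : ℕ∞) a2) (hw : ContDiff ℝ (⊤ : ℕ∞) w)
    (c : ℝ) : ContDiff ℝ (⊤ : ℕ∞) (FF lam a1 a2 w c) :=
  (hl.comp ((qq_smooth h1 h2).mul contDiff_const)).mul hw

theorem FF_near {lam : ℝ → ℝ} (h0 : ∀ s ≤ 1, lam s = 0) {a1 a2 w : R2 → ℝ}
    (h1 : ContDiff ℝ (⊤ : ℕ∞) a1) (h2 : ContDiff ℝ (⊤ : ℕ∞) a2) (c : ℝ)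
    (x : R2) (hx : qq a1 a2 x * c < 1) : FF lam a1 a2 w c =ᶠ[𝓝 x] fun _ => 0 := by
  have hc : Continuous fun y => qq a1 a2 y * c :=
    (qq_smooth h1 h2).continuous.mul continuous_const
  filter_upwards [hc.continuousAt.eventually_lt continuousAt_const hx] with y hy
  simp only [FF]
  rw [h0 _ hy.le, zero_mul]

/-- the curl of the truncated form. -/
theorem curl {lam : ℝ → ℝ} (hl : ContDiff ℝ (⊤ : ℕ∞) lam) {a1 a2 : R2 → ℝ}
    (h1 : ContDiff ℝ (⊤ : ℕ∞) a1) (h2 : ContDiff ℝ (⊤ : ℕ∞) a2) (x : R2)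
    (hcl : d1 a2 x = d2 a1 x) (c : ℝ) :
    fderiv ℝ (FF lam a1 a2 a2 c) x (1, 0) - fderiv ℝ (FF lam a1 a2 a1 c) x (0, 1) =
      deriv lam (qq a1 a2 x * c) * c * (d1 (qq a1 a2) x * a2 x - d2 (qq a1 a2) x * a1 x) := by
  have hld : Differentiable ℝ lam := hl.differentiable (by simp)
  have hqd := smooth_diff (qq_smooth h1 h2)
  have hA : Differentiable ℝ (fun y => lam (qq a1 a2 y * c)) :=
    smooth_diff (hl.comp ((qq_smooth h1 h2).mul contDiff_const))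
  have e1 : fderiv ℝ (FF lam a1 a2 a2 c) x (1, 0) =
      d1 (fun y => lam (qq a1 a2 y * c)) x * a2 x + lam (qq a1 a2 x * c) * d1 a2 x :=
    d1_mul (f := fun y => lam (qq a1 a2 y * c)) (g := a2) hA (smooth_diff h2) x
  have e2 : fderiv ℝ (FF lam a1 a2 a1 c) x (0, 1) =
      d2 (fun y => lam (qq a1 a2 y * c)) x * a1 x + lam (qq a1 a2 x * c) * d2 a1 x :=
    d2_mul (f := fun y => lam (qq a1 a2 y * c)) (g := a1) hA (smooth_diff h1) x
  have e3 : d1 (fun y => lam (qq a1 a2 y * c)) x =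
      deriv lam (qq a1 a2 x * c) * (d1 (qq a1 a2) x * c) := comp_fd hld hqd c x (1, 0)
  have e4 : d2 (fun y => lam (qq a1 a2 y * c)) x =
      deriv lam (qq a1 a2 x * c) * (d2 (qq a1 a2) x * c) := comp_fd hld hqd c x (0, 1)
  rw [e1, e2, e3, e4, hcl]
  ring

theorem d1_qq {a1 a2 : R2 → ℝ} (h1 : ContDiff ℝ (⊤ : ℕ∞) a1) (h2 : ContDiff ℝ (⊤ : ℕ∞) a2)
    (x : R2) : d1 (qq a1 a2) x = 2 * a1 x * d1 a1 x + 2 * a2 x * d1 a2 x := by
  have k1 := smooth_diff h1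
  have k2 := smooth_diff h2
  have h : qq a1 a2 = fun y => a1 y * a1 y + a2 y * a2 y := rfl
  rw [h, d1_add (f := fun y => a1 y * a1 y) (g := fun y => a2 y * a2 y)
    (k1.mul k1) (k2.mul k2), d1_mul k1 k1, d1_mul k2 k2]
  ring

theorem d2_qq {a1 a2 : R2 → ℝ} (h1 : ContDiff ℝ (⊤ : ℕ∞) a1) (h2 : ContDiff ℝ (⊤ : ℕ∞) a2)
    (x : R2) : d2 (qq a1 a2) x = 2 * a1 x * d2 a1 x + 2 * a2 x * d2 a2 x := by
  have k1 := smooth_diff h1
  have k2 := smooth_diff h2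
  have h : qq a1 a2 = fun y => a1 y * a1 y + a2 y * a2 y := rfl
  rw [h, d2_add (f := fun y => a1 y * a1 y) (g := fun y => a2 y * a2 y)
    (k1.mul k1) (k2.mul k2), d2_mul k1 k1, d2_mul k2 k2]
  ring

theorem curl_bound {lam : ℝ → ℝ} (hl : ContDiff ℝ (⊤ : ℕ∞) lam) {a1 a2 : R2 → ℝ}
    (h1 : ContDiff ℝ (⊤ : ℕ∞) a1) (h2 : ContDiff ℝ (⊤ : ℕ∞) a2) (x : R2)
    (hcl : d1 a2 x = d2 a1 x) {c : ℝ} (hc : 0 ≤ c) {L K : ℝ} (hL0 : 0 ≤ L)
    (hL : ∀ s, |deriv lam s| ≤ L) (hz : ∀ s, (s < 1 ∨ 2 < s) → deriv lam s = 0)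
    (h11 : |d1 a1 x| ≤ K) (h12 : |d1 a2 x| ≤ K) (h22 : |d2 a2 x| ≤ K) :
    |fderiv ℝ (FF lam a1 a2 a2 c) x (1, 0) - fderiv ℝ (FF lam a1 a2 a1 c) x (0, 1)| ≤
      8 * K * L := by
  have hK : 0 ≤ K := (abs_nonneg _).trans h11
  rw [curl hl h1 h2 x hcl]
  by_cases h : qq a1 a2 x * c < 1 ∨ 2 < qq a1 a2 x * c
  · rw [hz _ h]
    simp
    positivity
  · push Not at h
    have hq0 : 0 ≤ qq a1 a2 x := qq_nonneg a1 a2 x
    have hmain : |d1 (qq a1 a2) x * a2 x - d2 (qq a1 a2) x * a1 x| ≤ 4 * K * qq a1 a2 x := by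
      rw [d1_qq h1 h2, d2_qq h1 h2, ← hcl]
      have e : (2 * a1 x * d1 a1 x + 2 * a2 x * d1 a2 x) * a2 x -
          (2 * a1 x * d1 a2 x + 2 * a2 x * d2 a2 x) * a1 x =
          (2 * (a1 x * a2 x)) * (d1 a1 x - d2 a2 x) +
          2 * (a2 x * a2 x - a1 x * a1 x) * d1 a2 x := by ring
      rw [e]
      have k1 : |2 * (a1 x * a2 x)| ≤ qq a1 a2 x := by
        unfold qq
        rw [abs_le]
        constructor <;> nlinarith [sq_nonneg (a1 x + a2 x), sq_nonneg (a1 x - a2 x)]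
      have k2 : |a2 x * a2 x - a1 x * a1 x| ≤ qq a1 a2 x := by
        unfold qq
        rw [abs_le]
        constructor <;> nlinarith [sq_nonneg (a1 x), sq_nonneg (a2 x)]
      have k3 : |d1 a1 x - d2 a2 x| ≤ 2 * K := by
        have := abs_sub (d1 a1 x) (d2 a2 x)
        linarith
      calc _ ≤ |(2 * (a1 x * a2 x)) * (d1 a1 x - d2 a2 x)| +
            |2 * (a2 x * a2 x - a1 x * a1 x) * d1 a2 x| := abs_add_le _ _
        _ ≤ qq a1 a2 x * (2 * K) + 2 * qq a1 a2 x * K := by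
            have b1 : |(2 * (a1 x * a2 x)) * (d1 a1 x - d2 a2 x)| ≤ qq a1 a2 x * (2 * K) := by
              rw [abs_mul (2 * (a1 x * a2 x))]
              gcongr
            have b2 : |2 * (a2 x * a2 x - a1 x * a1 x) * d1 a2 x| ≤ 2 * qq a1 a2 x * K := by
              rw [abs_mul (2 * _), abs_mul (2 : ℝ), abs_two]
              gcongr
            linarith
        _ = 4 * K * qq a1 a2 x := by ring
    rw [abs_mul, abs_mul, abs_of_nonneg hc]
    calc |deriv lam (qq a1 a2 x * c)| * c * |d1 (qq a1 a2) x * a2 x - d2 (qq a1 a2) x * a1 x|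
        ≤ L * c * (4 * K * qq a1 a2 x) := by
          gcongr
          exact hL _
      _ = 4 * K * L * (qq a1 a2 x * c) := by ring
      _ ≤ 4 * K * L * 2 := by
          have := h.2
          gcongr
      _ = 8 * K * L := by ring

/-- the form `(a1, a2)` is closed over rectangles. -/
def RC (A1 A2 : R2 → ℝ) : Prop := ∀ a b c d : ℝ,
  (∫ s in a..b, A1 (s, c)) + (∫ t in c..d, A2 (b, t)) =
    (∫ t in c..d, A2 (a, t)) + ∫ s in a..b, A1 (s, d)

theorem RC_of_le {A1 A2 : R2 → ℝ} (h : ∀ a b c d : ℝ, a ≤ b → c ≤ d →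
    (∫ s in a..b, A1 (s, c)) + (∫ t in c..d, A2 (b, t)) =
      (∫ t in c..d, A2 (a, t)) + ∫ s in a..b, A1 (s, d)) : RC A1 A2 := by
  intro a b c d
  rcases le_total a b with hab | hab <;> rcases le_total c d with hcd | hcd
  · exact h _ _ _ _ hab hcd
  · have := h _ _ _ _ hab hcd
    rw [intervalIntegral.integral_symm d c, intervalIntegral.integral_symm d c]
    linarith
  · have := h _ _ _ _ hab hcd
    rw [intervalIntegral.integral_symm b a, intervalIntegral.integral_symm b a]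
    linarith
  · have := h _ _ _ _ hab hcd
    rw [intervalIntegral.integral_symm b a, intervalIntegral.integral_symm b a,
      intervalIntegral.integral_symm d c, intervalIntegral.integral_symm d c]
    linarith

/-- Data of the truncation lemma, after the choice of a subsequence: `b1 m, b2 m` are `ε m`-close to
`a1, a2`, `ε m = 1 / (8 (m + 1))`. -/
structure TD (W : Set R2) (a1 a2 : R2 → ℝ) (b1 b2 : ℕ → R2 → ℝ) (G : R2 → ℝ) : Prop where
  hW : IsOpen W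
  c1 : Continuous a1
  c2 : Continuous a2
  s1 : ∀ m, ContDiff ℝ (⊤ : ℕ∞) (b1 m)
  s2 : ∀ m, ContDiff ℝ (⊤ : ℕ∞) (b2 m)
  cl : ∀ m x, d1 (b2 m) x = d2 (b1 m) x
  u1 : ∀ (m : ℕ) x, |b1 m x - a1 x| ≤ 1 / (8 * ((m : ℝ) + 1))
  u2 : ∀ (m : ℕ) x, |b2 m x - a2 x| ≤ 1 / (8 * ((m : ℝ) + 1))
  fr : ∀ x ∈ frontier W, a1 x = 0 ∧ a2 x = 0
  Gb : ∀ᵐ x, ∀ m, |d1 (b1 m) x| ≤ G x ∧ |d1 (b2 m) x| ≤ G x ∧ |d2 (b2 m) x| ≤ G x
  GI : ∀ a b, IntegrableOn G (Icc a b)

namespace TD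

variable {W : Set R2} {a1 a2 : R2 → ℝ} {b1 b2 : ℕ → R2 → ℝ} {G : R2 → ℝ}

theorem small (T : TD W a1 a2 b1 b2 G) (m : ℕ) (x : R2) (h : a1 x = 0 ∧ a2 x = 0) :
    qq (b1 m) (b2 m) x * m < 1 := by
  have e1 := T.u1 m x
  have e2 := T.u2 m x
  rw [h.1, sub_zero] at e1
  rw [h.2, sub_zero] at e2
  have hm : (0 : ℝ) ≤ m := Nat.cast_nonneg m
  obtain ⟨ε, hε⟩ : ∃ ε : ℝ, ε = 1 / (8 * ((m : ℝ) + 1)) := ⟨_, rfl⟩
  rw [← hε] at e1 e2
  have hε0 : 0 < ε := by
    rw [hε]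
    positivity
  have hε1 : ε * (8 * ((m : ℝ) + 1)) = 1 := by
    rw [hε]
    field_simp
  have h1 : b1 m x * b1 m x ≤ ε * ε := by
    rw [← abs_mul_abs_self (b1 m x)]
    exact mul_self_le_mul_self (abs_nonneg _) e1
  have h2 : b2 m x * b2 m x ≤ ε * ε := by
    rw [← abs_mul_abs_self (b2 m x)]
    exact mul_self_le_mul_self (abs_nonneg _) e2
  have h3 : qq (b1 m) (b2 m) x ≤ 2 * (ε * ε) := by
    unfold qq
    linarith
  have h4 : qq (b1 m) (b2 m) x * m ≤ 2 * (ε * ε) * m := mul_le_mul_of_nonneg_right h3 hm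
  have h5 : 8 * ε * m ≤ 1 := by nlinarith
  have h6 : ε ≤ 1 := by nlinarith
  nlinarith

theorem eps_tendsto : Tendsto (fun m : ℕ => 1 / (8 * ((m : ℝ) + 1))) atTop (𝓝 0) := by
  have h := tendsto_one_div_add_atTop_nhds_zero_nat (𝕜 := ℝ)
  have h2 := h.const_mul (1 / 8)
  rw [mul_zero] at h2
  refine h2.congr fun m => ?_
  field_simp

theorem lim1 (T : TD W a1 a2 b1 b2 G) (x : R2) :
    Tendsto (fun m => b1 m x) atTop (𝓝 (a1 x)) := by
  rw [tendsto_iff_norm_sub_tendsto_zero]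
  exact squeeze_zero (fun m => norm_nonneg _) (fun m => by
    rw [Real.norm_eq_abs]
    exact T.u1 m x) eps_tendsto

theorem lim2 (T : TD W a1 a2 b1 b2 G) (x : R2) :
    Tendsto (fun m => b2 m x) atTop (𝓝 (a2 x)) := by
  rw [tendsto_iff_norm_sub_tendsto_zero]
  exact squeeze_zero (fun m => norm_nonneg _) (fun m => by
    rw [Real.norm_eq_abs]
    exact T.u2 m x) eps_tendsto

/-- at points where `a` does not vanish the truncation is finally inactive. -/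
theorem big (T : TD W a1 a2 b1 b2 G) (x : R2) (h : ¬ (a1 x = 0 ∧ a2 x = 0)) :
    ∀ᶠ m : ℕ in atTop, 2 < qq (b1 m) (b2 m) x * m := by
  have hq : Tendsto (fun m => qq (b1 m) (b2 m) x) atTop (𝓝 (qq a1 a2 x)) :=
    ((T.lim1 x).mul (T.lim1 x)).add ((T.lim2 x).mul (T.lim2 x))
  have hpos : 0 < qq a1 a2 x := by
    rcases (qq_nonneg a1 a2 x).lt_or_eq with h1 | h1
    · exact h1
    · exfalso
      apply h
      unfold qq at h1
      constructor <;> nlinarith [mul_self_nonneg (a1 x), mul_self_nonneg (a2 x)]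
  have h2 : Tendsto (fun m : ℕ => qq (b1 m) (b2 m) x * (m : ℝ)) atTop atTop :=
    hq.pos_mul_atTop hpos tendsto_natCast_atTop_atTop
  exact h2.eventually_gt_atTop 2

theorem deriv_at (T : TD W a1 a2 b1 b2 G) {lam : ℝ → ℝ} (hl : ContDiff ℝ (⊤ : ℕ∞) lam)
    (h0 : ∀ s ≤ 1, lam s = 0) (m : ℕ) {w : R2 → ℝ} (hw : ContDiff ℝ (⊤ : ℕ∞) w) (x : R2) :
    HasFDerivAt (W.indicator (FF lam (b1 m) (b2 m) w m))
      (W.indicator (fderiv ℝ (FF lam (b1 m) (b2 m) w m)) x) x :=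
  ind_deriv T.hW (smooth_diff (FF_smooth hl (T.s1 m) (T.s2 m) hw m))
    (fun y hy => FF_near h0 (T.s1 m) (T.s2 m) m y (T.small m y (T.fr y hy))) x

theorem cont (T : TD W a1 a2 b1 b2 G) {lam : ℝ → ℝ} (hl : ContDiff ℝ (⊤ : ℕ∞) lam)
    (h0 : ∀ s ≤ 1, lam s = 0) (m : ℕ) {w : R2 → ℝ} (hw : ContDiff ℝ (⊤ : ℕ∞) w) :
    Continuous (W.indicator (FF lam (b1 m) (b2 m) w m)) :=
  continuous_iff_continuousAt.2 fun x => (T.deriv_at hl h0 m hw x).continuousAt

/-- pointwise limit of the truncated fields. -/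
theorem F_lim (T : TD W a1 a2 b1 b2 G) {lam : ℝ → ℝ} (h0 : ∀ s ≤ 1, lam s = 0)
    (h1 : ∀ s, 2 ≤ s → lam s = 1) {w : R2 → ℝ} {b : ℕ → R2 → ℝ} (x : R2)
    (hb : Tendsto (fun m => b m x) atTop (𝓝 (w x))) (hw : a1 x = 0 ∧ a2 x = 0 → w x = 0) :
    Tendsto (fun m : ℕ => W.indicator (FF lam (b1 m) (b2 m) (b m) m) x) atTop
      (𝓝 (W.indicator w x)) := by
  by_cases hx : x ∈ W
  · simp only [indicator_of_mem hx]
    by_cases h : a1 x = 0 ∧ a2 x = 0
    · rw [hw h]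
      refine tendsto_const_nhds.congr fun m => ?_
      simp only [FF]
      rw [h0 _ (T.small m x h).le, zero_mul]
    · refine hb.congr' ?_
      filter_upwards [T.big x h] with m hm
      simp only [FF]
      rw [h1 _ hm.le, one_mul]
  · simp only [indicator_of_notMem hx]
    exact tendsto_const_nhds

theorem F_le {lam : ℝ → ℝ} (hb : ∀ s, |lam s| ≤ 1) (a1 a2 w : R2 → ℝ) (c : ℝ) (x : R2) :
    |W.indicator (FF lam a1 a2 w c) x| ≤ |w x| := by
  by_cases hx : x ∈ W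
  · rw [indicator_of_mem hx]
    simp only [FF, abs_mul]
    exact mul_le_of_le_one_left (abs_nonneg _) (hb _)
  · rw [indicator_of_notMem hx]
    simp

theorem line_lim (T : TD W a1 a2 b1 b2 G) {lam : ℝ → ℝ} (hl : ContDiff ℝ (⊤ : ℕ∞) lam)
    (h0 : ∀ s ≤ 1, lam s = 0) (h1 : ∀ s, 2 ≤ s → lam s = 1) (hb : ∀ s, |lam s| ≤ 1)
    {w : R2 → ℝ} (hwc : Continuous w) {b : ℕ → R2 → ℝ} (hbs : ∀ m, ContDiff ℝ (⊤ : ℕ∞) (b m))
    (hbw : ∀ (m : ℕ) x, |b m x - w x| ≤ 1 / (8 * ((m : ℝ) + 1)))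
    (hw : ∀ x, a1 x = 0 ∧ a2 x = 0 → w x = 0) {g : ℝ → R2} (hg : Continuous g) (a b' : ℝ) :
    Tendsto (fun m : ℕ => ∫ s in a..b', W.indicator (FF lam (b1 m) (b2 m) (b m) m) (g s)) atTop
      (𝓝 (∫ s in a..b', W.indicator w (g s))) := by
  refine intervalIntegral.tendsto_integral_filter_of_dominated_convergence
    (fun s => |w (g s)| + 1) ?_ ?_ ?_ ?_
  · exact Eventually.of_forall fun m =>
      ((T.cont hl h0 m (hbs m)).comp hg).aestronglyMeasurable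
  · refine Eventually.of_forall fun m => Eventually.of_forall fun s _ => ?_
    rw [Real.norm_eq_abs]
    refine (F_le hb _ _ _ _ _).trans ?_
    have e1 := hbw m (g s)
    have e2 : (1 : ℝ) / (8 * ((m : ℝ) + 1)) ≤ 1 := by
      rw [div_le_one (by positivity)]
      have : (0 : ℝ) ≤ m := Nat.cast_nonneg m
      linarith
    have e3 : |b m (g s)| ≤ |w (g s)| + |b m (g s) - w (g s)| := by
      have := abs_add_le (w (g s)) (b m (g s) - w (g s))
      rwa [add_sub_cancel] at this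
    linarith
  · exact (((hwc.comp hg).abs).add continuous_const).intervalIntegrable _ _
  · refine Eventually.of_forall fun s _ => T.F_lim h0 h1 (g s) ?_ (hw (g s))
    rw [tendsto_iff_norm_sub_tendsto_zero]
    exact squeeze_zero (fun m => norm_nonneg _) (fun m => by
      rw [Real.norm_eq_abs]
      exact hbw m (g s)) eps_tendsto

theorem area_lim (T : TD W a1 a2 b1 b2 G) {lam : ℝ → ℝ} (hl : ContDiff ℝ (⊤ : ℕ∞) lam)
    (hz : ∀ s, (s < 1 ∨ 2 < s) → deriv lam s = 0) {L : ℝ} (hL0 : 0 ≤ L)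
    (hL : ∀ s, |deriv lam s| ≤ L) (a b : R2) :
    (∀ m : ℕ, IntegrableOn (fun x => W.indicator (fderiv ℝ (FF lam (b1 m) (b2 m) (b2 m) m)) x (1, 0) +
      (-(W.indicator (fderiv ℝ (FF lam (b1 m) (b2 m) (b1 m) m)) x)) (0, 1)) (Icc a b)) ∧
    Tendsto (fun m : ℕ => ∫ x in Icc a b,
      W.indicator (fderiv ℝ (FF lam (b1 m) (b2 m) (b2 m) m)) x (1, 0) +
      (-(W.indicator (fderiv ℝ (FF lam (b1 m) (b2 m) (b1 m) m)) x)) (0, 1)) atTop (𝓝 0) := by
  have heq : ∀ (m : ℕ) x, W.indicator (fderiv ℝ (FF lam (b1 m) (b2 m) (b2 m) m)) x (1, 0) +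
      (-(W.indicator (fderiv ℝ (FF lam (b1 m) (b2 m) (b1 m) m)) x)) (0, 1) =
      W.indicator (fun y => fderiv ℝ (FF lam (b1 m) (b2 m) (b2 m) m) y (1, 0) -
        fderiv ℝ (FF lam (b1 m) (b2 m) (b1 m) m) y (0, 1)) x := by
    intro m x
    by_cases hx : x ∈ W
    · simp only [indicator_of_mem hx, _root_.neg_apply]
      ring
    · simp only [indicator_of_notMem hx]
      simp
  have hbd : ∀ᵐ x, ∀ (m : ℕ), |W.indicator (fun y =>
      fderiv ℝ (FF lam (b1 m) (b2 m) (b2 m) m) y (1, 0) -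
        fderiv ℝ (FF lam (b1 m) (b2 m) (b1 m) m) y (0, 1)) x| ≤ 8 * G x * L := by
    filter_upwards [T.Gb] with x hx m
    obtain ⟨k11, k12, k22⟩ := hx m
    have hG0 : 0 ≤ G x := (abs_nonneg _).trans k11
    by_cases hW' : x ∈ W
    · rw [indicator_of_mem hW']
      exact curl_bound hl (T.s1 m) (T.s2 m) x (T.cl m x) (Nat.cast_nonneg m) hL0 hL hz
        k11 k12 k22
    · rw [indicator_of_notMem hW']
      simp
      positivity
  have hm : ∀ m : ℕ, AEStronglyMeasurable (W.indicator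
      (fun y => fderiv ℝ (FF lam (b1 m) (b2 m) (b2 m) m) y (1, 0) -
        fderiv ℝ (FF lam (b1 m) (b2 m) (b1 m) m) y (0, 1))) (volume.restrict (Icc a b)) := by
    intro m
    have c1 : Continuous fun y => fderiv ℝ (FF lam (b1 m) (b2 m) (b2 m) m) y (1, 0) :=
      (d1_smooth (FF_smooth hl (T.s1 m) (T.s2 m) (T.s2 m) m)).continuous
    have c2 : Continuous fun y => fderiv ℝ (FF lam (b1 m) (b2 m) (b1 m) m) y (0, 1) :=
      (d2_smooth (FF_smooth hl (T.s1 m) (T.s2 m) (T.s1 m) m)).continuous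
    exact ((c1.sub c2).stronglyMeasurable.indicator T.hW.measurableSet).aestronglyMeasurable
  have hci : IntegrableOn (fun x : R2 => 8 * G x * L) (Icc a b) volume :=
    ((T.GI a b).const_mul 8).mul_const L
  have hae : ∀ m : ℕ, ∀ᵐ x ∂(volume.restrict (Icc a b)), ‖W.indicator (fun y =>
      fderiv ℝ (FF lam (b1 m) (b2 m) (b2 m) m) y (1, 0) -
        fderiv ℝ (FF lam (b1 m) (b2 m) (b1 m) m) y (0, 1)) x‖ ≤ 8 * G x * L := fun m => by
    filter_upwards [ae_restrict_of_ae hbd] with x hx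
    rw [Real.norm_eq_abs]
    exact hx m
  refine ⟨fun m => ?_, ?_⟩
  · simp only [heq]
    exact Integrable.mono' hci (hm m) (hae m)
  · simp only [heq]
    have := tendsto_integral_of_dominated_convergence (μ := volume.restrict (Icc a b))
      (F := fun m : ℕ => W.indicator (fun y => fderiv ℝ (FF lam (b1 m) (b2 m) (b2 m) m) y (1, 0) -
        fderiv ℝ (FF lam (b1 m) (b2 m) (b1 m) m) y (0, 1))) (f := fun _ => 0)
      (fun x => 8 * G x * L) hm hci hae (Eventually.of_forall fun x => ?_)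
    · simpa using this
    · by_cases hx : x ∈ W
      · simp only [indicator_of_mem hx]
        refine tendsto_const_nhds.congr' ?_
        by_cases h : a1 x = 0 ∧ a2 x = 0
        · refine Eventually.of_forall fun m => ?_
          show (0 : ℝ) = fderiv ℝ (FF lam (b1 m) (b2 m) (b2 m) m) x (1, 0) -
            fderiv ℝ (FF lam (b1 m) (b2 m) (b1 m) m) x (0, 1)
          rw [curl hl (T.s1 m) (T.s2 m) x (T.cl m x), hz _ (Or.inl (T.small m x h))]
          simp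
        · filter_upwards [T.big x h] with m hm
          rw [curl hl (T.s1 m) (T.s2 m) x (T.cl m x), hz _ (Or.inr hm)]
          simp
      · simp only [indicator_of_notMem hx]
        exact tendsto_const_nhds

/-- **Truncation, rectangle form.** -/
theorem rect_le (T : TD W a1 a2 b1 b2 G) {a b c d : ℝ} (hab : a ≤ b) (hcd : c ≤ d) :
    (∫ s in a..b, W.indicator a1 (s, c)) + (∫ t in c..d, W.indicator a2 (b, t)) =
      (∫ t in c..d, W.indicator a2 (a, t)) + ∫ s in a..b, W.indicator a1 (s, d) := by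
  obtain ⟨lam, hl, h0, h1, hb, hz, L, hL0, hL⟩ := exists_cut
  obtain ⟨hint, hlim⟩ := T.area_lim hl hz hL0 hL (a, c) (b, d)
  have hdiv : ∀ m : ℕ, (∫ x in Icc ((a, c) : R2) (b, d),
      W.indicator (fderiv ℝ (FF lam (b1 m) (b2 m) (b2 m) m)) x (1, 0) +
      (-(W.indicator (fderiv ℝ (FF lam (b1 m) (b2 m) (b1 m) m)) x)) (0, 1)) =
      (((∫ s in a..b, -W.indicator (FF lam (b1 m) (b2 m) (b1 m) m) (s, d)) -
        ∫ s in a..b, -W.indicator (FF lam (b1 m) (b2 m) (b1 m) m) (s, c)) +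
        ∫ t in c..d, W.indicator (FF lam (b1 m) (b2 m) (b2 m) m) (b, t)) -
        ∫ t in c..d, W.indicator (FF lam (b1 m) (b2 m) (b2 m) m) (a, t) := fun m =>
    integral_divergence_prod_Icc_of_hasFDerivAt_of_le
      (W.indicator (FF lam (b1 m) (b2 m) (b2 m) m))
      (fun x => -W.indicator (FF lam (b1 m) (b2 m) (b1 m) m) x)
      (W.indicator (fderiv ℝ (FF lam (b1 m) (b2 m) (b2 m) m)))
      (fun x => -(W.indicator (fderiv ℝ (FF lam (b1 m) (b2 m) (b1 m) m)) x)) (a, c) (b, d) ⟨hab, hcd⟩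
      (T.cont hl h0 m (T.s2 m)).continuousOn
      (T.cont hl h0 m (T.s1 m)).neg.continuousOn
      (fun x _ => T.deriv_at hl h0 m (T.s2 m) x)
      (fun x _ => (T.deriv_at hl h0 m (T.s1 m) x).neg) (hint m)
  have g1 : ∀ e : ℝ, Continuous fun s : ℝ => ((s, e) : R2) := fun e => by fun_prop
  have g2 : ∀ e : ℝ, Continuous fun s : ℝ => ((e, s) : R2) := fun e => by fun_prop
  have l1 := T.line_lim hl h0 h1 hb T.c1 T.s1 T.u1 (fun _ h => h.1) (g1 d) a b
  have l2 := T.line_lim hl h0 h1 hb T.c1 T.s1 T.u1 (fun _ h => h.1) (g1 c) a b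
  have l3 := T.line_lim hl h0 h1 hb T.c2 T.s2 T.u2 (fun _ h => h.2) (g2 b) c d
  have l4 := T.line_lim hl h0 h1 hb T.c2 T.s2 T.u2 (fun _ h => h.2) (g2 a) c d
  simp only [hdiv, intervalIntegral.integral_neg] at hlim
  have l5 := ((l1.neg.sub l2.neg).add l3).sub l4
  have := tendsto_nhds_unique l5 hlim
  linarith

theorem rc (T : TD W a1 a2 b1 b2 G) : RC (W.indicator a1) (W.indicator a2) :=
  RC_of_le fun _ _ _ _ hab hcd => T.rect_le hab hcd

end TD

end Pool.W4b1b5d.TR
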