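import Pool.Agent.W_4b1b5d_h35.TrPrim
import Pool.Agent.W_4b1b5d_h3.DefsI

/-!
# The truncation lemma on `V2`
-/

set_option autoImplicit false

open Set Filter MeasureTheory Topology

namespace Pool.W4b1b5d.TR

open Pool.W4b1b5d.H13 Pool.W4b1b5d.H3

/-- coordinates -/
noncomputable def tv : R2 ≃L[ℝ] V2 := (ContinuousLinearEquiv.finTwoArrow ℝ ℝ).symm

theorem tv_apply (p : R2) : tv p = ![p.1, p.2] := rfl

theorem tv_symm (x : V2) : tv.symm x = (x 0, x 1) := rfl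

theorem tv_e0 : tv (1, 0) = Pi.single 0 1 := by
  rw [tv_apply]
  ext i
  fin_cases i <;> simp

theorem tv_e1 : tv (0, 1) = Pi.single 1 1 := by
  rw [tv_apply]
  ext i
  fin_cases i <;> simp

theorem d1_tv (f : V2 → ℝ) (p : R2) : d1 (f ∘ tv) p = pd 0 f (tv p) := by
  unfold d1 pd
  rw [ContinuousLinearEquiv.comp_right_fderiv]
  simp [tv_e0]

theorem d2_tv (f : V2 → ℝ) (p : R2) : d2 (f ∘ tv) p = pd 1 f (tv p) := by
  unfold d2 pd
  rw [ContinuousLinearEquiv.comp_right_fderiv]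
  simp [tv_e1]

/-- Data of the truncation lemma on `V2`. -/
structure TV (W : Set V2) (a : Fin 2 → V2 → ℝ) (b : ℕ → Fin 2 → V2 → ℝ) (G : V2 → ℝ) : Prop where
  hW : IsOpen W
  c : ∀ i, Continuous (a i)
  s : ∀ m i, ContDiff ℝ (⊤ : ℕ∞) (b m i)
  cl : ∀ m x, pd 0 (b m 1) x = pd 1 (b m 0) x
  u : ∀ (m : ℕ) i x, |b m i x - a i x| ≤ 1 / (8 * ((m : ℝ) + 1))
  fr : ∀ x ∈ frontier W, ∀ i, a i x = 0
  bd : ∀ᵐ x, ∀ m i k, |pd k (b m i) x| ≤ G x
  GI : ∀ u v : V2, IntegrableOn G (Icc u v)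

theorem GI_tv {G : V2 → ℝ} (h : ∀ u v : V2, IntegrableOn G (Icc u v)) (p q : R2) :
    IntegrableOn (G ∘ tv) (Icc p q) := by
  have h1 := (volume_preserving_finTwoArrow ℝ).symm
  have h2 : MeasurePreserving (tv : R2 → V2) := h1
  have h3 : MeasurableEmbedding (tv : R2 → V2) := tv.toHomeomorph.measurableEmbedding
  have h4 : (Icc p q : Set R2) = tv ⁻¹' Icc (tv p) (tv q) := by
    ext z
    simp only [mem_preimage, mem_Icc, tv_apply, Pi.le_def, Fin.forall_fin_two, Prod.le_def]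
    simp
  rw [h4, h2.integrableOn_comp_preimage h3]
  exact h _ _

theorem TV.toTD {W : Set V2} {a : Fin 2 → V2 → ℝ} {b : ℕ → Fin 2 → V2 → ℝ} {G : V2 → ℝ}
    (T : TV W a b G) : TD (tv ⁻¹' W) (a 0 ∘ tv) (a 1 ∘ tv) (fun m => b m 0 ∘ tv)
      (fun m => b m 1 ∘ tv) (G ∘ tv) where
  hW := T.hW.preimage tv.continuous
  c1 := (T.c 0).comp tv.continuous
  c2 := (T.c 1).comp tv.continuous
  s1 m := (T.s m 0).comp tv.contDiff
  s2 m := (T.s m 1).comp tv.contDiff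
  cl m x := by
    rw [d1_tv, d2_tv]
    exact T.cl m _
  u1 m x := T.u m 0 _
  u2 m x := T.u m 1 _
  fr x hx := by
    have h1 : tv x ∈ frontier W := by
      have h2 := tv.toHomeomorph.preimage_frontier W
      have h3 : x ∈ (tv.toHomeomorph) ⁻¹' frontier W := by
        rw [h2]
        exact hx
      exact h3
    exact ⟨T.fr _ h1 0, T.fr _ h1 1⟩
  Gb := by
    have h1 : MeasurePreserving (tv : R2 → V2) := (volume_preserving_finTwoArrow ℝ).symm
    filter_upwards [h1.quasiMeasurePreserving.ae T.bd] with x hx m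
    rw [d1_tv, d1_tv, d2_tv]
    exact ⟨hx m 0 0, hx m 1 0, hx m 1 1⟩
  GI p q := GI_tv T.GI p q

theorem TV.ind_cont {W : Set V2} {a : Fin 2 → V2 → ℝ} {b : ℕ → Fin 2 → V2 → ℝ} {G : V2 → ℝ}
    (T : TV W a b G) (i : Fin 2) : Continuous (W.indicator (a i)) :=
  continuous_indicator (fun x hx => T.fr x hx i) (T.c i).continuousOn

/-- The truncated form has a primitive. -/
theorem TV.prim {W : Set V2} {a : Fin 2 → V2 → ℝ} {b : ℕ → Fin 2 → V2 → ℝ} {G : V2 → ℝ}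
    (T : TV W a b G) : ∃ psi : V2 → ℝ, ∀ x, HasFDerivAt psi
      (W.indicator (a 0) x • ContinuousLinearMap.proj (R := ℝ) (φ := fun _ : Fin 2 => ℝ) 0 +
        W.indicator (a 1) x • ContinuousLinearMap.proj (R := ℝ) (φ := fun _ : Fin 2 => ℝ) 1) x := by
  have hind : ∀ i, (tv ⁻¹' W).indicator (a i ∘ tv) = W.indicator (a i) ∘ tv := fun i => by
    funext x
    rfl
  have hrc := T.toTD.rc
  rw [hind, hind] at hrc
  obtain ⟨psi, hpsi⟩ := TR.prim ((T.ind_cont 0).comp tv.continuous)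
    ((T.ind_cont 1).comp tv.continuous) hrc
  refine ⟨psi ∘ tv.symm, fun x => ?_⟩
  have h1 := (hpsi (tv.symm x)).comp x tv.symm.hasFDerivAt
  refine h1.congr_fderiv ?_
  refine ContinuousLinearMap.ext fun w => ?_
  have hx : tv (x 0, x 1) = x := tv.apply_symm_apply x
  simp [tv_symm, hx]

end Pool.W4b1b5d.TR
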