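import Pool.Agent.W_4b1b5d_h35.TrInt
import Pool.Agent.W_4b1b5d_h35.TrForm
import Pool.Agent.W_4b1b5d_h35.TrV
import Pool.Agent.W_4b1b5d_h34.Form
import Pool.Agent.W_4b1b5d_h66.SHGlueC

/-!
# Truncation of the imaginary part of the momentum form for almost every real value
-/

set_option autoImplicit false

open Set Filter MeasureTheory Topology

namespace Pool.W4b1b5d.TR

open Pool.W4b1b5d.H3 Pool.W4b1b5d.SH Pool.W4b1b5d.H34

theorem LB_bdd (M : ℕ) (B : ℤ → V2 → ℂ) (hB : ∀ k, ∃ m : ℝ, ∀ x, ‖B k x‖ ≤ m) (c ρ : ℝ)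
    (hc : 0 < c) : ∃ C : ℝ, 0 < C ∧ ∀ (x : V2) (Y : ℂ), c ≤ ‖Y‖ → ‖Y‖ ≤ ρ →
      ‖LB M B 0 x Y‖ ≤ C := by
  choose m hm using hB
  have hm0 : ∀ k, 0 ≤ m k := fun k => (norm_nonneg _).trans (hm k 0)
  obtain ⟨Q, hQ⟩ : ∃ Q : ℝ, Q = max 1 (max ρ c⁻¹) := ⟨_, rfl⟩
  have hQ1 : 1 ≤ Q := by rw [hQ]; exact le_max_left _ _
  have hQ0 : 0 < Q := by linarith
  have hQρ : ρ ≤ Q := by rw [hQ]; exact (le_max_left _ _).trans (le_max_right _ _)
  have hQc : c⁻¹ ≤ Q := by rw [hQ]; exact (le_max_right _ _).trans (le_max_right _ _)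
  have hpow : ∀ (T : ℝ) (s : ℤ), c ≤ T → T ≤ ρ → T ^ s ≤ Q ^ s.natAbs := by
    intro T s h1 h2
    have hT0 : 0 < T := lt_of_lt_of_le hc h1
    rcases s.natAbs_eq with h3 | h3
    · have e : T ^ s = T ^ s.natAbs := by
        conv_lhs => rw [h3, zpow_natCast]
      rw [e]
      exact pow_le_pow_left₀ hT0.le (h2.trans hQρ) _
    · have e : T ^ s = (T⁻¹) ^ s.natAbs := by
        conv_lhs => rw [h3, zpow_neg, zpow_natCast]
        rw [inv_pow]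
      rw [e]
      exact pow_le_pow_left₀ (inv_pos.2 hT0).le ((inv_anti₀ hc h1).trans hQc) _
  have hS : 0 ≤ ∑ j ∈ Finset.range (2 * M + 1), m ((j : ℤ) - M) * ‖fall ((j : ℤ) - M) 0‖ *
      Q ^ ((j : ℤ) - M - (0 : ℕ)).natAbs := Finset.sum_nonneg fun j _ => by
        have := hm0 ((j : ℤ) - M)
        positivity
  refine ⟨∑ j ∈ Finset.range (2 * M + 1), m ((j : ℤ) - M) * ‖fall ((j : ℤ) - M) 0‖ *
      Q ^ ((j : ℤ) - M - (0 : ℕ)).natAbs + 1, by linarith, fun x Y h1 h2 => ?_⟩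
  have h3 : ‖LB M B 0 x Y‖ ≤ ∑ j ∈ Finset.range (2 * M + 1), m ((j : ℤ) - M) *
      ‖fall ((j : ℤ) - M) 0‖ * Q ^ ((j : ℤ) - M - (0 : ℕ)).natAbs := by
    unfold LB Lk
    refine norm_sum_le_of_le _ fun j _ => ?_
    rw [norm_mul, norm_mul, norm_zpow]
    have h4 := hm ((j : ℤ) - M) x
    have h5 := hpow ‖Y‖ ((j : ℤ) - M - (0 : ℕ)) h1 h2
    have := hm0 ((j : ℤ) - M)
    exact mul_le_mul (mul_le_mul_of_nonneg_right h4 (norm_nonneg _)) h5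
      (zpow_nonneg (norm_nonneg _) _) (by positivity)
  linarith

theorem dd_single (k : Fin 2) (f : V2 → ℂ) (x : V2) :
    dd (Pi.single k 1) f x = fderiv ℝ f x (Pi.single k 1) := by
  unfold dd
  rw [Finset.sum_eq_single k]
  · rw [Pi.single_eq_same, one_mul]
  · intro i _ hi
    rw [Pi.single_eq_of_ne hi, zero_mul]
  · intro h
    exact absurd (Finset.mem_univ k) h

variable {D : PD} {s τ : ℝ}

theorem P_lower (D : PD) : ∃ c : ℝ, 0 < c ∧ ∀ (x : V2) (P : ℂ), D.l x ≤ ‖P‖ ^ 2 → c ≤ ‖P‖ := by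
  obtain ⟨c₀, C₀, hc₀, hl⟩ := D.l_bounds
  refine ⟨Real.sqrt c₀, Real.sqrt_pos.2 hc₀, fun x P h => ?_⟩
  rw [Real.sqrt_le_left (norm_nonneg _)]
  exact (hl x).1.trans h

theorem dP_bound (hs : s = 1 ∨ s = -1) (hτ : 0 < τ) (hH : Ks s τ ⊆ D.H) (S : Sh D 2 s τ)
    (j : Fin S.n) (N : ℝ) : ∃ C : ℝ, 0 ≤ C ∧ ∀ (n : ℕ) (x : V2) (w : ℝ) (k : Fin 2), |w| ≤ N →
      ‖fderiv ℝ (fun y => S.P j y (vn s τ n w)) x (Pi.single k 1)‖ ≤ C * fn S j n (x, w) := by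
  obtain ⟨CY, hCY, hY⟩ := Y_bound hs hτ S j
  obtain ⟨c₀, C₀, hc₀, hl⟩ := D.l_bounds
  obtain ⟨p, hp, hP⟩ := P_lower D
  have hLB : ∀ k : Fin 2, ∃ C : ℝ, 0 < C ∧ ∀ (x : V2) (Y : ℂ), c₀ ≤ ‖Y‖ →
      ‖Y‖ ≤ CY * (1 + (N + τ)) →
      ‖LB D.M (fun m => dd (Pi.single k 1) (D.B m)) 0 x Y‖ ≤ C := fun k =>
    LB_bdd D.M _ (fun m => PD.SHBasC_bdd (dd_contDiff _ (D.Bsm m)).continuous
      (dd_per _ (D.Bper m))) c₀ _ hc₀
  choose CL hCL0 hCL using hLB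
  refine ⟨(CL 0 + CL 1) / (2 * p), by
    have := hCL0 0
    have := hCL0 1
    positivity, fun n x w k hw => ?_⟩
  have hv := vn_mem hs hτ n w
  have hvU := Sh.SHGlueE_sub s τ hv
  obtain ⟨h1, h2, -⟩ := S.dd_in (by norm_num) hH j x (vn s τ n w) hv (Pi.single k 1)
  rw [dd_single] at h1
  have hle := S.le j x _ hvU
  have hPn : p ≤ ‖S.P j x (vn s τ n w)‖ := hP x _ hle
  have hPp : 0 < ‖S.P j x (vn s τ n w)‖ := hp.trans_le hPn
  have hLBk := hCL k x (S.P j x (vn s τ n w) ^ 2) (by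
    rw [norm_pow]
    exact (hl x).1.trans hle) (hY n x w N hw)
  have hR : 0 < ‖D.R 1 x (S.P j x (vn s τ n w) ^ 2)‖ := norm_pos_iff.2 h2
  have h3 : ‖LB D.M (fun m => dd (Pi.single k 1) (D.B m)) 0 x (S.P j x (vn s τ n w) ^ 2)‖ ≤
      CL 0 + CL 1 := by
    refine hLBk.trans ?_
    have := hCL0 0
    have := hCL0 1
    fin_cases k <;> simp <;> linarith
  have h4 : 2 * ‖S.P j x (vn s τ n w)‖ * ‖D.R 1 x (S.P j x (vn s τ n w) ^ 2)‖ *
      ‖fderiv ℝ (fun y => S.P j y (vn s τ n w)) x (Pi.single k 1)‖ ≤ CL 0 + CL 1 := by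
    refine le_trans (le_of_eq ?_) h3
    have h5 := eq_neg_of_add_eq_zero_left h1
    have h6 := congrArg norm h5
    rw [norm_neg, norm_mul, norm_mul, norm_mul] at h6
    rw [← h6]
    norm_num
  have e : fn S j n (x, w) = ‖D.R 1 x (S.P j x (vn s τ n w) ^ 2)‖⁻¹ := rfl
  rw [e, ← div_eq_mul_inv, le_div_iff₀ hR, le_div_iff₀ (by positivity)]
  refine le_trans ?_ h4
  have h7 : 0 ≤ ‖fderiv ℝ (fun y => S.P j y (vn s τ n w)) x (Pi.single k 1)‖ *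
      ‖D.R 1 x (S.P j x (vn s τ n w) ^ 2)‖ := by positivity
  calc ‖fderiv ℝ (fun y => S.P j y (vn s τ n w)) x (Pi.single k 1)‖ *
        ‖D.R 1 x (S.P j x (vn s τ n w) ^ 2)‖ * (2 * p)
      ≤ ‖fderiv ℝ (fun y => S.P j y (vn s τ n w)) x (Pi.single k 1)‖ *
        ‖D.R 1 x (S.P j x (vn s τ n w) ^ 2)‖ * (2 * ‖S.P j x (vn s τ n w)‖) := by gcongr
    _ = _ := by ring

theorem w_mem (s : ℝ) {τ : ℝ} (hτ : 0 < τ) (w : ℝ) : (w : ℂ) ∈ Us s τ := by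
  refine ⟨?_, ?_⟩ <;> simp [hτ]

theorem P_close (hs : s = 1 ∨ s = -1) (hτ : 0 < τ) (S : Sh D 2 s τ) (j : Fin S.n) (w : ℝ)
    {ε : ℝ} (hε : 0 < ε) : ∃ n : ℕ, ∀ x, ‖S.P j x (vn s τ n w) - S.P j x w‖ ≤ ε := by
  obtain ⟨C, hC, h⟩ := S.holder (|w| + τ)
  obtain ⟨n, hn⟩ := exists_nat_ge (C * τ / ε ^ (2 * 2 * D.M))
  refine ⟨n, fun x => ?_⟩
  have hM := D.hM
  have hv := vn_mem hs hτ n w
  have h1 := h j x (vn s τ n w) w (Sh.SHGlueE_sub s τ hv) (w_mem s hτ w) (by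
    have h3 := norm_le_norm_add_norm_sub' (vn s τ n w) (w : ℂ)
    rw [vn_dist hs hτ n w, Complex.norm_real, Real.norm_eq_abs] at h3
    have := (tn_lt hτ n).le
    linarith) (by
    rw [Complex.norm_real, Real.norm_eq_abs]
    linarith)
  rw [vn_dist hs hτ n w] at h1
  have hεp : 0 < ε ^ (2 * 2 * D.M) := pow_pos hε _
  have h2 : C * tn τ n ≤ ε ^ (2 * 2 * D.M) := by
    unfold tn
    rw [mul_div_assoc', div_le_iff₀ (by positivity)]
    rw [div_le_iff₀ hεp] at hn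
    nlinarith
  exact (pow_le_pow_iff_left₀ (norm_nonneg _) hε.le (by omega)).1 (h1.trans h2)

theorem Pn_smooth (S : Sh D 2 s τ) (j : Fin S.n) {v : ℂ} (hv : v ∈ Ks s τ) :
    ContDiff ℝ (⊤ : ℕ∞) fun x => S.P j x v := by
  rw [contDiff_iff_contDiffAt]
  intro x
  have h1 := Sh.SHGlueE_at S j x hv
  have h2 : ContDiffAt ℝ (⊤ : ℕ∞) (fun y : V2 => ((y, v) : V2 × ℂ)) x :=
    contDiffAt_id.prodMk contDiffAt_const
  exact ContDiffAt.comp (f := fun y : V2 => ((y, v) : V2 × ℂ))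
    (g := fun z : V2 × ℂ => S.P j z.1 z.2) x h1 h2

theorem P_cont (S : Sh D 2 s τ) (j : Fin S.n) {v : ℂ} (hv : v ∈ Us s τ) :
    Continuous fun x => S.P j x v := by
  have h2 : Continuous fun y : V2 => ((y, v) : V2 × ℂ) := continuous_id.prodMk continuous_const
  exact (S.cont j).comp_continuous h2 fun z => ⟨mem_univ _, hv⟩

/-- **Truncation** for almost every `w`: for every open `W` such that the sheet is on the circle over
the frontier of `W`. -/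
theorem trunc_ae (hs : s = 1 ∨ s = -1) (hτ : 0 < τ) (hH : Ks s τ ⊆ D.H) (S : Sh D 2 s τ)
    (j : Fin S.n) : ∀ᵐ w : ℝ, ∀ W : Set V2, IsOpen W →
      (∀ x ∈ frontier W, ‖S.P j x (w : ℂ)‖ ^ 2 = D.l x) →
      ∃ (b : ℕ → Fin 2 → V2 → ℝ) (G : V2 → ℝ),
        TV W (fm D fun x => S.P j x (w : ℂ)) b G := by
  filter_upwards [exists_G hs hτ hH S j] with w hw W hW hfr
  obtain ⟨g, hgI, hg0, hg⟩ := hw
  obtain ⟨C1, hC1, hdP⟩ := dP_bound hs hτ hH S j |w|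
  obtain ⟨C2, hC2, hpd⟩ := pd_fm_le D
  have hchoose : ∀ m : ℕ, ∃ n : ℕ, ∀ x, ‖S.P j x (vn s τ n w) - S.P j x w‖ ≤
      1 / (8 * ((m : ℝ) + 1)) / (2 * ck D.al + 1) := fun m =>
    P_close hs hτ S j w (by
      have := ck_nonneg D.al
      positivity)
  choose n hn using hchoose
  have hwU := w_mem s hτ w
  refine ⟨fun m i => fm D (fun x => S.P j x (vn s τ (n m) w)) i, fun x => C2 * (1 + C1 * g x),
    ⟨hW, fun i => ?_, fun m i => ?_, fun m x => ?_, fun m i x => ?_, fun x hx i => ?_, ?_, ?_⟩⟩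
  · exact fm_cont D (P_cont S j hwU) (fun x => P_ne S j x hwU) i
  · have hv := vn_mem hs hτ (n m) w
    exact fm_smooth D (Pn_smooth S j hv) (fun x => P_ne S j x (Sh.SHGlueE_sub s τ hv)) i
  · have hv := vn_mem hs hτ (n m) w
    exact fm_closed D (Sh.SHGlueE_diff S j x hv) (P_ne S j x (Sh.SHGlueE_sub s τ hv))
      (S.closed_in hH j x _ hv)
  · have hv := vn_mem hs hτ (n m) w
    refine (fm_close D (P := fun x => S.P j x (vn s τ (n m) w)) (P' := fun x => S.P j x w)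
      (S.le j x _ (Sh.SHGlueE_sub s τ hv)) (S.le j x _ hwU) i).trans ?_
    have hck := ck_nonneg D.al
    have h1 := hn m x
    rw [le_div_iff₀ (by positivity)] at h1
    have h2 := norm_nonneg (S.P j x (vn s τ (n m) w) - S.P j x w)
    show 2 * ck D.al * ‖S.P j x (vn s τ (n m) w) - S.P j x w‖ ≤ _
    nlinarith
  · exact fm_zero D (P := fun x => S.P j x w) (hfr x hx) i
  · filter_upwards [hg] with x hx m i k
    have hv := vn_mem hs hτ (n m) w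
    refine (hpd (fun y => S.P j y (vn s τ (n m) w)) x (Sh.SHGlueE_diff S j x hv)
      (S.le j x _ (Sh.SHGlueE_sub s τ hv)) i k).trans ?_
    have h1 := hdP (n m) x w k le_rfl
    have h2 := hx (n m)
    have h3 : C1 * fn S j (n m) (x, w) ≤ C1 * g x := mul_le_mul_of_nonneg_left h2 hC1
    gcongr
    exact h1.trans h3
  · intro u v
    have h1 : IntegrableOn (fun _ : V2 => (1 : ℝ)) (Icc u v) := by
      refine integrableOn_const ?_
      exact isCompact_Icc.measure_lt_top.ne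
    exact ((h1.add ((hgI u v).const_mul C1)).const_mul C2)

/-- The truncated form as a periodic closed form. -/
theorem TV.cform {W : Set V2} {a : Fin 2 → V2 → ℝ} {b : ℕ → Fin 2 → V2 → ℝ} {G : V2 → ℝ}
    (T : TV W a b G) (hWper : ∀ (x : V2) (k : Fin 2 → ℤ), (x + fun i => (k i : ℝ)) ∈ W ↔ x ∈ W)
    (haper : ∀ i, Per (a i)) : CForm fun x i => ((W.indicator (a i) x : ℝ) : ℂ) where
  cont := continuous_pi fun i => Complex.continuous_ofReal.comp (T.ind_cont i)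
  per := by
    intro x k
    funext i
    have e : W.indicator (a i) (x + fun i => (k i : ℝ)) = W.indicator (a i) x := by
      by_cases hx : x ∈ W
      · rw [indicator_of_mem hx, indicator_of_mem ((hWper x k).2 hx), haper i x k]
      · rw [indicator_of_notMem hx, indicator_of_notMem fun h => hx ((hWper x k).1 h)]
    exact congrArg (fun r : ℝ => (r : ℂ)) e
  prim := by
    obtain ⟨psi, hpsi⟩ := T.prim
    refine ⟨fun x => (psi x : ℂ), fun x => ?_⟩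
    have h1 := Complex.ofRealCLM.hasFDerivAt.comp x (hpsi x)
    refine h1.congr_fderiv ?_
    refine ContinuousLinearMap.ext fun v => ?_
    rw [cl_apply]
    simp
    ring

/-- The region where the sheets `S.P j` and `T.P i` coincide outside of the circle. -/
def WW (S : Sh D 2 1 τ) (T : Sh D 2 (-1) τ) (j : Fin S.n) (i : Fin T.n) (w : ℝ) : Set V2 :=
  {x | D.l x < ‖S.P j x (w : ℂ)‖ ^ 2 ∧ S.P j x (w : ℂ) = T.P i x (w : ℂ)}

theorem R1_ne {s' : ℝ} (hτ : 0 < τ) (S : Sh D 2 s' τ) (j : Fin S.n) {w : ℝ} (hw : w ∉ D.CR)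
    {x : V2} (hx : D.l x < ‖S.P j x (w : ℂ)‖ ^ 2) : D.R 1 x (S.P j x (w : ℂ) ^ 2) ≠ 0 := by
  intro h
  refine hw ⟨x, S.P j x (w : ℂ) ^ 2, ?_, h, S.root j x w (w_mem s' hτ w)⟩
  rw [norm_pow]
  exact hx

theorem WW_open (hτ : 0 < τ) (hHp : Ks 1 τ ⊆ D.H) (hHm : Ks (-1) τ ⊆ D.H) (S : Sh D 2 1 τ)
    (T : Sh D 2 (-1) τ) (j : Fin S.n) (i : Fin T.n) {w : ℝ} (hw : w ∉ D.CR) :
    IsOpen (WW S T j i w) := by
  rw [isOpen_iff_mem_nhds]
  rintro x0 ⟨h1, h2⟩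
  obtain ⟨i', hi', hu⟩ := Sh.glue (by norm_num) hτ hHp hHm S T j x0 w h1 (R1_ne hτ S j hw h1)
  have hii : i = i' := hu i h2.symm
  subst hii
  have hc : Tendsto (fun x : V2 => ((x, w) : V2 × ℝ)) (𝓝 x0) (𝓝 (x0, w)) :=
    (continuous_id.prodMk continuous_const).tendsto x0
  have h3 : ∀ᶠ x in 𝓝 x0, D.l x < ‖S.P j x (w : ℂ)‖ ^ 2 :=
    (D.lsm.continuous.continuousAt).eventually_lt
      (((P_cont S j (w_mem 1 hτ w)).norm.pow 2).continuousAt) h1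
  filter_upwards [hc.eventually hi', h3] with x hx hx3
  exact ⟨hx3, hx⟩

theorem WW_frontier (hτ : 0 < τ) (hHp : Ks 1 τ ⊆ D.H) (hHm : Ks (-1) τ ⊆ D.H) (S : Sh D 2 1 τ)
    (T : Sh D 2 (-1) τ) (j : Fin S.n) (i : Fin T.n) {w : ℝ} (hw : w ∉ D.CR) {x : V2}
    (hx : x ∈ frontier (WW S T j i w)) : ‖S.P j x (w : ℂ)‖ ^ 2 = D.l x := by
  have hop := WW_open hτ hHp hHm S T j i hw
  rw [hop.frontier_eq] at hx
  obtain ⟨hcl, hnot⟩ := hx
  have hSc := P_cont S j (w_mem 1 hτ w)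
  have hTc := P_cont T i (w_mem (-1) hτ w)
  have hcs : IsClosed {x : V2 | S.P j x (w : ℂ) = T.P i x (w : ℂ)} := isClosed_eq hSc hTc
  have hsub : WW S T j i w ⊆ {x : V2 | S.P j x (w : ℂ) = T.P i x (w : ℂ)} := fun y hy => hy.2
  have h2 : S.P j x (w : ℂ) = T.P i x (w : ℂ) := closure_minimal hsub hcs hcl
  have h3 := S.le j x _ (w_mem 1 hτ w)
  by_contra hne
  exact hnot ⟨lt_of_le_of_ne h3 fun h => hne h.symm, h2⟩

theorem WW_per (hτ : 0 < τ) (S : Sh D 2 1 τ) (T : Sh D 2 (-1) τ) (j : Fin S.n) (i : Fin T.n)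
    (w : ℝ) (x : V2) (k : Fin 2 → ℤ) :
    (x + fun i => (k i : ℝ)) ∈ WW S T j i w ↔ x ∈ WW S T j i w := by
  have h1 := S.per j w (w_mem 1 hτ w) x k
  have h2 := T.per i w (w_mem (-1) hτ w) x k
  have h3 := D.lper x k
  simp only at h1 h2
  unfold WW
  simp only [mem_ofPred_eq, h1, h2, h3]

/-- **Truncation, final form.** -/
theorem trunc_final (hτ : 0 < τ) (hHp : Ks 1 τ ⊆ D.H) (hHm : Ks (-1) τ ⊆ D.H) (S : Sh D 2 1 τ)
    (T : Sh D 2 (-1) τ) : ∀ᵐ w : ℝ, w ∉ D.CR ∧ ∀ (j : Fin S.n) (i : Fin T.n),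
      CForm fun x m => (((WW S T j i w).indicator (fm D (fun x => S.P j x (w : ℂ)) m) x : ℝ) : ℂ) := by
  have h1 : ∀ᵐ w : ℝ, w ∉ D.CR := by
    rw [ae_iff]
    simp only [not_not]
    exact D.CR_countable.measure_zero _
  have h2 : ∀ᵐ w : ℝ, ∀ j : Fin S.n, ∀ W : Set V2, IsOpen W →
      (∀ x ∈ frontier W, ‖S.P j x (w : ℂ)‖ ^ 2 = D.l x) →
      ∃ (b : ℕ → Fin 2 → V2 → ℝ) (G : V2 → ℝ),
        TV W (fm D fun x => S.P j x (w : ℂ)) b G :=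
    ae_all_iff.2 fun j => trunc_ae (Or.inl rfl) hτ hHp S j
  filter_upwards [h1, h2] with w hw1 hw2
  refine ⟨hw1, fun j i => ?_⟩
  obtain ⟨b, G, hT⟩ := hw2 j (WW S T j i w) (WW_open hτ hHp hHm S T j i hw1)
    fun x hx => WW_frontier hτ hHp hHm S T j i hw1 hx
  exact hT.cform (WW_per hτ S T j i w) fun m => fm_per D (S.per j w (w_mem 1 hτ w)) m

end Pool.W4b1b5d.TR
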